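import Pool.Agent.Lib.MP_7d88aa_pr.Tr

/-!
A finitely dependent process with a realisation by nuclear operators of a Hilbert space has unbounded constant runs.
-/

set_option autoImplicit false
set_option linter.unusedSectionVars false

namespace Pool.Agent.MP_7d88aa

open scoped InnerProductSpace

variable {H : Type*} [NormedAddCommGroup H] [InnerProductSpace ℝ H] [CompleteSpace H]

/-- `T` has a nuclear representation. -/
def Nuc (T : H →L[ℝ] H) : Prop := ∃ (J : Type) (a b : J → H), Rep a b T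

theorem Nuc.zero : Nuc (0 : H →L[ℝ] H) :=
  ⟨Empty, fun _ => 0, fun _ => 0, summable_empty, fun x => by
    simp⟩

theorem Nuc.add {S T : H →L[ℝ] H} (hS : Nuc S) (hT : Nuc T) : Nuc (S + T) := by
  obtain ⟨J, a, b, h⟩ := hS
  obtain ⟨J', a', b', h'⟩ := hT
  refine ⟨J ⊕ J', Sum.elim a a', Sum.elim b b', ?_, fun x => ?_⟩
  · exact (HasSum.sum (f := fun n : J ⊕ J' => ‖Sum.elim a a' n‖ * ‖Sum.elim b b' n‖)
      (by simpa [Function.comp_def] using h.sm.hasSum)
      (by simpa [Function.comp_def] using h'.sm.hasSum)).summable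
  · exact HasSum.sum (f := fun n : J ⊕ J' => ⟪Sum.elim b b' n, x⟫_ℝ • Sum.elim a a' n)
      (by simpa [Function.comp_def] using h.hs x)
      (by simpa [Function.comp_def] using h'.hs x)

theorem Nuc.sum {ι : Type*} (s : Finset ι) (S : ι → H →L[ℝ] H) (h : ∀ i, Nuc (S i)) :
    Nuc (∑ i ∈ s, S i) := by
  classical
  induction s using Finset.induction_on with
  | empty => simpa using Nuc.zero
  | insert i s hi ih =>
    rw [Finset.sum_insert hi]
    exact (h i).add ih

theorem Nuc.rankOne (x y : H) : Nuc ((innerSL ℝ y).smulRight x) :=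
  ⟨Unit, fun _ => x, fun _ => y, (hasSum_fintype _).summable, fun z => by
    simp⟩

theorem Nuc.neg {T : H →L[ℝ] H} (hT : Nuc T) : Nuc (-T) := by
  obtain ⟨J, a, b, h⟩ := hT
  refine ⟨J, fun n => - a n, b, ?_, fun x => ?_⟩
  · simpa using h.sm
  · simpa using (h.hs x).neg

theorem Nuc.comp_left {T : H →L[ℝ] H} (hT : Nuc T) (S : H →L[ℝ] H) : Nuc (S ∘L T) := by
  obtain ⟨J, a, b, h⟩ := hT
  exact ⟨J, _, _, h.comp_left S⟩

theorem Nuc.comp_right {T : H →L[ℝ] H} (hT : Nuc T) (S : H →L[ℝ] H)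
    (hS : ∀ x y, ⟪S x, y⟫_ℝ = ⟪x, S y⟫_ℝ) : Nuc (T ∘L S) := by
  obtain ⟨J, a, b, h⟩ := hT
  exact ⟨J, _, _, h.comp_right S hS⟩

theorem Nuc.nilpotent {T : H →L[ℝ] H} (hT : Nuc T) (m : ℕ) (hm : T ^ m = 0) {ι : Type*}
    (e : HilbertBasis ι ℝ H) : HasSum (fun j => ⟪e j, T (e j)⟫_ℝ) 0 := by
  obtain ⟨J, a, b, h⟩ := hT
  have h1 := h.trace e
  rwa [h.nilpotent m hm] at h1

variable {ι : Type}

/-- the product of the operators of a word -/
def wd (A : ι → H →L[ℝ] H) : List ι → H →L[ℝ] H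
  | [] => 1
  | i :: w => A i * wd A w

theorem wd_append (A : ι → H →L[ℝ] H) (u v : List ι) : wd A (u ++ v) = wd A u * wd A v := by
  induction u with
  | nil => simp [wd]
  | cons i u ih => rw [List.cons_append, wd, ih, wd, mul_assoc]

variable [Fintype ι]

theorem core (A : ι → H →L[ℝ] H) (hR : ∀ i, Nuc (A i)) (l r : H) (k : ℕ)
    (h1 : ⟪l, r⟫_ℝ = 1) (h2 : ⟪l, (∑ i, A i) r⟫_ℝ = 1)
    (hk : ∀ u v : List ι, ⟪l, wd A u (((∑ i, A i) ^ (k + 1)) (wd A v r))⟫_ℝ =
      ⟪l, wd A u r⟫_ℝ * ⟪l, wd A v r⟫_ℝ)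
    (m : ι → ℕ) (hm : ∀ i, ∀ u v : List ι, ⟪l, wd A u ((A i ^ m i) (wd A v r))⟫_ℝ = 0) : False := by
  set T : H →L[ℝ] H := ∑ i, A i with hT
  -- the reachable space
  set V : Submodule ℝ H :=
    (Submodule.span ℝ (Set.range fun v : List ι => wd A v r)).topologicalClosure with hV
  have hVc : IsClosed (V : Set H) := Submodule.isClosed_topologicalClosure _
  have hVle : ∀ W : Submodule ℝ H, IsClosed (W : Set H) → (∀ v, wd A v r ∈ W) → V ≤ W := by
    intro W hW h
    refine Submodule.topologicalClosure_minimal _ ?_ hW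
    rw [Submodule.span_le]
    rintro _ ⟨v, rfl⟩
    exact h v
  have hVw : ∀ v, wd A v r ∈ V := fun v =>
    Submodule.le_topologicalClosure _ (Submodule.subset_span ⟨v, rfl⟩)
  have hVext : ∀ φ : H →L[ℝ] ℝ, (∀ v, φ (wd A v r) = 0) → ∀ x ∈ V, φ x = 0 := by
    intro φ h x hx
    have := hVle (LinearMap.ker (φ : H →ₗ[ℝ] ℝ)) φ.isClosed_ker (fun v => LinearMap.mem_ker.2 (h v)) hx
    exact LinearMap.mem_ker.1 this
  have hVA : ∀ i x, x ∈ V → A i x ∈ V := by
    intro i x hx
    have := hVle (V.comap (A i : H →ₗ[ℝ] H)) (hVc.preimage (A i).continuous)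
      (fun v => by
        show A i (wd A v r) ∈ V
        exact hVw (i :: v)) hx
    exact this
  -- the null space
  set N : Submodule ℝ H :=
    V ⊓ ⨅ u : List ι, LinearMap.ker (((innerSL ℝ l).comp (wd A u) : H →L[ℝ] ℝ) : H →ₗ[ℝ] ℝ) with hN
  have hNmem : ∀ x, x ∈ N ↔ x ∈ V ∧ ∀ u, ⟪l, wd A u x⟫_ℝ = 0 := by
    intro x
    rw [hN, Submodule.mem_inf, Submodule.mem_iInf]
    exact Iff.rfl
  have hNc : IsClosed (N : Set H) := by
    rw [hN, Submodule.coe_inf, Submodule.coe_iInf]
    exact hVc.inter (isClosed_iInter fun u => ContinuousLinearMap.isClosed_ker _)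
  have hNA : ∀ i x, x ∈ N → A i x ∈ N := by
    intro i x hx
    rw [hNmem] at hx ⊢
    refine ⟨hVA i x hx.1, fun u => ?_⟩
    have := hx.2 (u ++ [i])
    rw [wd_append] at this
    simpa [wd] using this
  set Q : Submodule ℝ H := V ⊓ Nᗮ with hQ
  have hQc : IsClosed (Q : Set H) := by
    rw [hQ, Submodule.coe_inf]
    exact hVc.inter N.isClosed_orthogonal
  have hNcomp : CompleteSpace N := hNc.completeSpace_coe
  have hQcomp : CompleteSpace Q := hQc.completeSpace_coe
  set E : H →L[ℝ] H := Q.starProjection with hE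
  have hEQ : ∀ x, E x ∈ Q := fun x => Submodule.starProjection_apply_mem Q x
  have hEV : ∀ x, E x ∈ V := fun x => (hEQ x).1
  have hNQ : N ≤ Qᗮ := by
    have : Q ≤ Nᗮ := inf_le_right
    exact (Submodule.le_orthogonal_orthogonal N).trans (Submodule.orthogonal_le this)
  have hEN : ∀ x ∈ N, E x = 0 := by
    intro x hx
    exact Submodule.eq_starProjection_of_mem_orthogonal' (Submodule.zero_mem _) (hNQ hx)
      (by rw [zero_add])
  have hE1 : ∀ x ∈ V, x - E x ∈ N := by
    intro x hx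
    have hy : N.starProjection x ∈ N := Submodule.starProjection_apply_mem N x
    have hEx : E x = x - N.starProjection x := by
      refine Submodule.eq_starProjection_of_mem_orthogonal' (K := Q) (z := N.starProjection x)
        ⟨V.sub_mem hx ((hNmem _).1 hy).1, Submodule.sub_starProjection_mem_orthogonal x⟩ (hNQ hy) ?_
      abel
    rw [hEx, sub_sub_cancel]
    exact hy
  have hEE : ∀ x, E (E x) = E x := by
    intro x
    exact Submodule.starProjection_eq_self_iff.2 (hEQ x)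
  have hEsymm := star_symm Q
  have hEcong : ∀ S : H →L[ℝ] H, (∀ x ∈ N, S x ∈ N) → ∀ x ∈ V, E (S (E x)) = E (S x) := by
    intro S hS x hx
    have h3 := hEN _ (hS _ (hE1 x hx))
    rw [map_sub, map_sub, sub_eq_zero] at h3
    exact h3.symm
  have hpow : ∀ S : H →L[ℝ] H, (∀ x ∈ N, S x ∈ N) → (∀ x ∈ V, S x ∈ V) → ∀ j : ℕ, ∀ x,
      ((E ∘L S ∘L E) ^ (j + 1)) x = E ((S ^ (j + 1)) (E x)) := by
    intro S hS hS' j
    have hSN : ∀ j : ℕ, ∀ x ∈ N, (S ^ j) x ∈ N := by
      intro j
      induction j with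
      | zero => intro x hx; simpa using hx
      | succ j ih => intro x hx; rw [pow_succ', mul_apply_eq_comp]; exact hS _ (ih x hx)
    induction j with
    | zero => intro x; simp
    | succ j ih =>
      intro x
      rw [pow_succ, mul_apply_eq_comp, ih]
      have h3 : (E ∘L S ∘L E) x = E (S (E x)) := rfl
      rw [h3, hEE, hEcong (S ^ (j + 1)) (hSN _) _ (hS' _ (hEV x)), pow_succ S (j + 1),
        mul_apply_eq_comp]
  have hTapp : ∀ x, T x = ∑ i, A i x := fun x => by rw [hT, sum_apply]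
  have hTN : ∀ x ∈ N, T x ∈ N := fun x hx => by
    rw [hTapp]
    exact Submodule.sum_mem _ fun i _ => hNA i x hx
  have hTV : ∀ x ∈ V, T x ∈ V := fun x hx => by
    rw [hTapp]
    exact Submodule.sum_mem _ fun i _ => hVA i x hx
  have hTkV : ∀ (S : H →L[ℝ] H), (∀ x ∈ V, S x ∈ V) → ∀ j : ℕ, ∀ x ∈ V, (S ^ j) x ∈ V := by
    intro S hS j
    induction j with
    | zero => intro x hx; simpa using hx
    | succ j ih => intro x hx; rw [pow_succ', mul_apply_eq_comp]; exact hS _ (ih x hx)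
  have hrV : r ∈ V := by simpa [wd] using hVw []
  have hlE : ∀ x ∈ V, ⟪l, E x⟫_ℝ = ⟪l, x⟫_ℝ := by
    intro x hx
    have h3 := ((hNmem _).1 (hE1 x hx)).2 []
    simp only [wd, one_apply_eq_self, inner_sub_right] at h3
    linarith
  -- the compressed operators
  set B : ι → H →L[ℝ] H := fun i => E ∘L A i ∘L E with hB
  set Tb : H →L[ℝ] H := E ∘L T ∘L E with hTb
  have hTbsum : Tb = ∑ i, B i := by
    ext x
    rw [sum_apply]
    simp only [hTb, hB, ContinuousLinearMap.comp_apply, hTapp, map_sum]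
  have hBnuc : ∀ i, Nuc (B i) := fun i => ((hR i).comp_right E hEsymm).comp_left E
  have hTbk : ∀ x, (Tb ^ (k + 1)) x = ⟪l, E x⟫_ℝ • E r := by
    intro x
    rw [hTb, hpow T hTN hTV k x]
    have h3 : (T ^ (k + 1)) (E x) - ⟪l, E x⟫_ℝ • r ∈ N := by
      rw [hNmem]
      refine ⟨V.sub_mem (hTkV T hTV _ _ (hEV x)) (V.smul_mem _ hrV), fun u => ?_⟩
      have h4 := hVext (((innerSL ℝ l).comp ((wd A u).comp (T ^ (k + 1)))) -
        ⟪l, wd A u r⟫_ℝ • innerSL ℝ l) (fun v => by
          simp only [sub_apply, ContinuousLinearMap.comp_apply, smul_apply,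
            innerSL_apply_apply, smul_eq_mul]
          rw [hk u v, sub_self]) (E x) (hEV x)
      simp only [sub_apply, ContinuousLinearMap.comp_apply, smul_apply,
            innerSL_apply_apply, smul_eq_mul] at h4
      rw [map_sub, map_smul, inner_sub_right, inner_smul_right]
      linarith
    have h4 := hEN _ h3
    rwa [map_sub, map_smul, sub_eq_zero] at h4
  have hm0 : ∀ i, m i ≠ 0 := by
    intro i h0
    have := hm i [] []
    rw [h0] at this
    simp only [wd, pow_zero, one_apply_eq_self] at this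
    rw [h1] at this
    exact one_ne_zero this
  have hBnil : ∀ i, (B i) ^ (m i) = 0 := by
    intro i
    obtain ⟨j, hj⟩ := Nat.exists_eq_succ_of_ne_zero (hm0 i)
    rw [hj]
    ext x
    rw [Nat.succ_eq_add_one, hB]
    simp only
    rw [hpow (A i) (fun x hx => hNA i x hx) (fun x hx => hVA i x hx) j x, zero_apply]
    refine hEN _ ((hNmem _).2 ⟨hTkV (A i) (fun x hx => hVA i x hx) _ _ (hEV x), fun u => ?_⟩)
    have h4 := hVext ((innerSL ℝ l).comp ((wd A u).comp (A i ^ (j + 1)))) (fun v => by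
      simp only [ContinuousLinearMap.comp_apply, innerSL_apply_apply]
      have := hm i u v
      rw [hj] at this
      exact this) (E x) (hEV x)
    simpa using h4
  -- the vectors
  set r' : H := E r with hr'
  set lam : H →L[ℝ] ℝ := innerSL ℝ (E l) with hlam
  have hlamapp : ∀ x, lam x = ⟪l, E x⟫_ℝ := fun x => by
    rw [hlam, innerSL_apply_apply]
    exact hEsymm l x
  have hlr : lam r' = 1 := by
    rw [hlamapp, hr', hEE, hlE r hrV, h1]
  have hTbr1 : lam (Tb r') = 1 := by
    have h3 : Tb r' = E (T r) := by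
      have : Tb r' = E (T (E (E r))) := rfl
      rw [this, hEE, hEcong T hTN r hrV]
    rw [h3, hlamapp, hEE, hlE _ (hTV r hrV), h2]
  have hTbk' : ∀ x, (Tb ^ (k + 1)) x = lam x • r' := fun x => by rw [hTbk, hlamapp]
  have hcomm : ∀ x, Tb ((Tb ^ (k + 1)) x) = (Tb ^ (k + 1)) (Tb x) := by
    intro x
    rw [← mul_apply_eq_comp, ← mul_apply_eq_comp, ← pow_succ', ← pow_succ]
  have hTbr : Tb r' = r' := by
    have h3 := hcomm r'
    rw [hTbk', hTbk', hlr, one_smul, hTbr1, one_smul] at h3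
    exact h3
  have hlamT : ∀ x, lam (Tb x) = lam x := by
    intro x
    have h3 := hcomm x
    rw [hTbk', hTbk', map_smul, hTbr] at h3
    have h4 := congrArg lam h3
    rw [map_smul, map_smul, hlr, smul_eq_mul, smul_eq_mul, mul_one, mul_one] at h4
    exact h4.symm
  -- the nilpotent part
  set N0 : H →L[ℝ] H := Tb + -(lam.smulRight r') with hN0
  have hN0app : ∀ x, N0 x = Tb x - lam x • r' := fun x => by
    rw [hN0, add_apply, neg_apply, ContinuousLinearMap.smulRight_apply, sub_eq_add_neg]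
  have hN0pow : ∀ j : ℕ, ∀ x, (N0 ^ (j + 1)) x = (Tb ^ (j + 1)) x - lam x • r' := by
    intro j
    induction j with
    | zero => intro x; simp [hN0app]
    | succ j ih =>
      intro x
      rw [pow_succ, mul_apply_eq_comp, ih, hN0app, pow_succ Tb (j + 1), mul_apply_eq_comp, map_sub,
        map_smul, map_sub, map_smul, hlamT, hlr, smul_eq_mul, mul_one, sub_self, zero_smul, sub_zero]
      have h3 : ∀ j : ℕ, (Tb ^ j) r' = r' := by
        intro j
        induction j with
        | zero => simp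
        | succ j ih => rw [pow_succ, mul_apply_eq_comp, hTbr, ih]
      rw [h3]
  have hN0nil : N0 ^ (k + 1) = 0 := by
    ext x
    rw [hN0pow, hTbk', sub_self, zero_apply]
  have hN0nuc : Nuc N0 := by
    rw [hN0, hTbsum]
    exact (Nuc.sum _ _ hBnuc).add (Nuc.rankOne r' (E l)).neg
  obtain ⟨w, e, -⟩ := exists_hilbertBasis ℝ H
  have t1 := hN0nuc.nilpotent (k + 1) hN0nil e
  have t2 : HasSum (fun j => ⟪e j, Tb (e j)⟫_ℝ) 0 := by
    have h3 : HasSum (fun j => ∑ i, ⟪e j, B i (e j)⟫_ℝ) (∑ i : ι, (0 : ℝ)) :=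
      hasSum_sum fun i _ => (hBnuc i).nilpotent (m i) (hBnil i) e
    rw [Finset.sum_const_zero] at h3
    refine h3.congr_fun ?_
    intro j
    rw [hTbsum, sum_apply, inner_sum]
  have t3 : HasSum (fun j => ⟪e j, lam (e j) • r'⟫_ℝ) 1 := by
    have h3 := e.hasSum_inner_mul_inner (E l) r'
    have h4 : ⟪E l, r'⟫_ℝ = 1 := by rw [← hlr, hlam, innerSL_apply_apply]
    rw [h4] at h3
    refine h3.congr_fun ?_
    intro j
    rw [inner_smul_right, hlam, innerSL_apply_apply]
  have t4 := t2.sub t3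
  have t5 : HasSum (fun j => ⟪e j, N0 (e j)⟫_ℝ) (0 - 1) := by
    refine t4.congr_fun ?_
    intro j
    rw [hN0app, inner_sub_right]
  have := t1.unique t5
  norm_num at this

end Pool.Agent.MP_7d88aa
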