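import Mathlib

/-!
Stationary Markov chains with countably many states; finitely dependent processes.
-/

set_option autoImplicit false

namespace Pool.Agent.MP_7d88aa

open MeasureTheory ProbabilityTheory

/-- `(M i)`, `i ∈ ℤ`, is a stationary Markov chain with the state space `S`, the stationary law `p` and the transition matrix `P`:
the probability of `M i = x 0, …, M (i + n) = x n` is `p (x 0) * P (x 0) (x 1) * … * P (x (n - 1)) (x n)`, for all `i` and `n`. -/
structure IsMarkovChain {Ω S : Type} [MeasurableSpace Ω] (μ : Measure Ω) (M : ℤ → Ω → S) (p : S → ℝ) (P : S → S → ℝ) :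
    Prop where
  meas : ∀ i x, MeasurableSet {ω | M i ω = x}
  nonneg : ∀ x y, 0 ≤ P x y
  row : ∀ x, HasSum (P x) 1
  law : ∀ (i : ℤ) (n : ℕ) (x : ℕ → S), μ.real {ω | ∀ j : ℕ, j ≤ n → M (i + j) ω = x j} =
    p (x 0) * ∏ j ∈ Finset.range n, P (x j) (x (j + 1))

/-- `(X i)`, `i ∈ ℤ`, is `k`-dependent: for all sets `A`, `B` of integers with `|a - b| > k` for all `a ∈ A`, `b ∈ B`, the families
`(X a)`, `a ∈ A`, and `(X b)`, `b ∈ B`, are independent. -/
def IsDependent {Ω C : Type} [MeasurableSpace Ω] [MeasurableSpace C] (μ : Measure Ω) (X : ℤ → Ω → C) (k : ℕ) : Prop :=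
  ∀ A B : Set ℤ, (∀ a ∈ A, ∀ b ∈ B, (k : ℤ) < |a - b|) →
    IndepFun (fun (ω : Ω) (a : A) => X a ω) (fun (ω : Ω) (b : B) => X b ω) μ

end Pool.Agent.MP_7d88aa
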