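import Pool.Agent.Lib.MP_7d88aa_pr.Defs

/-!
Functions of reversible chains on arbitrary state spaces.
-/

set_option autoImplicit false
set_option linter.unusedSectionVars false

namespace Pool.Agent.MP_7d88aa.Gen

open MeasureTheory ProbabilityTheory
open scoped ENNReal

/-- the probability that the `n` states of the chain after the state `x` lie in `G 0`, …, `G (n - 1)` -/
noncomputable def pathProb {S : Type} [MeasurableSpace S] (κ : Kernel S S) : ℕ → (ℕ → Set S) → S → ℝ≥0∞
  | 0, _, _ => 1
  | n + 1, G, x => ∫⁻ y in G 0, pathProb κ n (fun j => G (j + 1)) y ∂(κ x)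

/-- `(M i)`, `i ∈ ℤ`, is a stationary Markov chain with values in the measurable space `S`, the stationary law `π` and the transition
kernel `κ`: the probability of `M i ∈ G 0, …, M (i + n) ∈ G n` is the integral over `x ∈ G 0` with respect to `π` of
`∫_{G 1} κ(x, dx 1) ⋯ ∫_{G n} κ(x (n - 1), dx n)`, for all `i` and `n` and all measurable sets `G j`. -/
structure IsMarkovProcess {Ω S : Type} [MeasurableSpace Ω] [MeasurableSpace S] (μ : Measure Ω) (M : ℤ → Ω → S)
    (π : Measure S) (κ : Kernel S S) : Prop where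
  meas : ∀ i, Measurable (M i)
  law : ∀ (i : ℤ) (n : ℕ) (G : ℕ → Set S), (∀ j, MeasurableSet (G j)) →
    μ {ω | ∀ j : ℕ, j ≤ n → M (i + j) ω ∈ G j} = ∫⁻ x in G 0, pathProb κ n (fun j => G (j + 1)) x ∂π

variable {Ω S : Type}

/-- the chain visits the sets of the list one after the other, from the time `i` on -/
def cyl (M : ℤ → Ω → S) : ℤ → List (Set S) → Set Ω
  | _, [] => Set.univ
  | i, G :: L => {ω | M i ω ∈ G} ∩ cyl M (i + 1) L

theorem cyl_append (M : ℤ → Ω → S) (L L' : List (Set S)) : ∀ i : ℤ,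
    cyl M i (L ++ L') = cyl M i L ∩ cyl M (i + L.length) L' := by
  induction L with
  | nil => intro i; simp [cyl]
  | cons G L ih =>
    intro i
    rw [List.cons_append, cyl, cyl, ih, Set.inter_assoc, List.length_cons]
    congr 3
    push_cast
    ring

theorem cyl_univ (M : ℤ → Ω → S) (n : ℕ) : ∀ i : ℤ, cyl M i (List.replicate n Set.univ) = Set.univ := by
  induction n with
  | zero => intro i; rfl
  | succ n ih => intro i; rw [List.replicate_succ, cyl, ih]; simp

theorem mem_cyl_ofFn {M : ℤ → Ω → S} {n : ℕ} : ∀ (G : Fin n → Set S) (i : ℤ) (ω : Ω),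
    ω ∈ cyl M i (List.ofFn G) ↔ ∀ j : Fin n, M (i + (j : ℕ)) ω ∈ G j := by
  induction n with
  | zero => intro G i ω; simp [cyl]
  | succ n ih =>
    intro G i ω
    rw [List.ofFn_succ, cyl, Set.mem_inter_iff, ih, Fin.forall_fin_succ]
    refine and_congr ?_ ?_
    · simp
    · refine forall_congr' fun j => ?_
      have : i + 1 + ((j : ℕ) : ℤ) = i + ((j.succ : ℕ) : ℤ) := by
        rw [Fin.val_succ]
        push_cast
        ring
      rw [this]

theorem mem_cyl {M : ℤ → Ω → S} (L : List (Set S)) : ∀ (i : ℤ) (ω : Ω),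
    ω ∈ cyl M i L ↔ ∀ j : ℕ, j < L.length → M (i + j) ω ∈ L.getD j Set.univ := by
  induction L with
  | nil => intro i ω; simp [cyl]
  | cons G L ih =>
    intro i ω
    rw [cyl, Set.mem_inter_iff, ih]
    constructor
    · rintro ⟨h1, h2⟩ j hj
      rcases j with _ | j
      · simpa using h1
      · have := h2 j (by simpa using hj)
        rw [List.getD_cons_succ]
        have e : i + 1 + (j : ℤ) = i + ((j + 1 : ℕ) : ℤ) := by push_cast; ring
        rwa [e] at this
    · intro h
      refine ⟨by simpa using h 0 (by simp), fun j hj => ?_⟩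
      have := h (j + 1) (by simpa using hj)
      rw [List.getD_cons_succ] at this
      have e : i + 1 + (j : ℤ) = i + ((j + 1 : ℕ) : ℤ) := by push_cast; ring
      rwa [e]

variable [MeasurableSpace Ω] [MeasurableSpace S] {μ : Measure Ω} {C : Type} [MeasurableSpace C]

/-- cylinders are measurable with respect to the process on an index set -/
theorem meas_comap (M : ℤ → Ω → S) (f : S → C) (A : Set ℤ) : ∀ (L : List (Set C)) (i : ℤ),
    (∀ H ∈ L, MeasurableSet H) → (∀ j : ℕ, j < L.length → i + j ∈ A) →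
    MeasurableSet[MeasurableSpace.comap (fun (ω : Ω) (a : A) => f (M a ω)) inferInstance]
      (cyl M i (L.map fun H => f ⁻¹' H)) := by
  intro L
  induction L with
  | nil => intro i _ _; exact MeasurableSet.univ
  | cons c L ih =>
    intro i hL hi
    rw [List.map_cons, cyl]
    refine MeasurableSet.inter ?_ ?_
    · have hiA : i ∈ A := by simpa using hi 0 (by simp)
      refine ⟨(fun x : A → C => x ⟨i, hiA⟩) ⁻¹' c, measurable_pi_apply _ (hL c List.mem_cons_self), ?_⟩
      ext ω
      simp
    · refine ih (i + 1) (fun H hH => hL H (List.mem_cons_of_mem _ hH)) fun j hj => ?_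
      have := hi (j + 1) (by simpa using hj)
      push_cast at this
      rwa [add_assoc, add_comm (1 : ℤ)]

theorem cyl_indep (M : ℤ → Ω → S) (f : S → C) {k : ℕ}
    (hk : IsDependent μ (fun i ω => f (M i ω)) k) (L L' : List (Set C)) (hL : ∀ H ∈ L, MeasurableSet H)
    (hL' : ∀ H ∈ L', MeasurableSet H) (i : ℤ) (t : ℕ) (ht : k ≤ t) :
    μ (cyl M i (L.map fun H => f ⁻¹' H) ∩ cyl M (i + L.length + t) (L'.map fun H => f ⁻¹' H)) =
      μ (cyl M i (L.map fun H => f ⁻¹' H)) * μ (cyl M (i + L.length + t) (L'.map fun H => f ⁻¹' H)) := by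
  set A : Set ℤ := {a | a < i + L.length} with hA
  set B : Set ℤ := {b | i + L.length + t ≤ b} with hB
  have h1 := hk A B (fun a ha b hb => by
    rw [hA, Set.mem_ofPred_eq] at ha
    rw [hB, Set.mem_ofPred_eq] at hb
    rw [abs_sub_comm, lt_abs]
    left
    have : (k : ℤ) ≤ t := by exact_mod_cast ht
    omega)
  rw [IndepFun_iff_Indep, Indep_iff] at h1
  exact h1 _ _ (meas_comap M f A L i hL (fun j hj => by
      rw [hA, Set.mem_ofPred_eq]
      omega))
    (meas_comap M f B L' (i + L.length + t) hL' (fun j hj => by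
      rw [hB, Set.mem_ofPred_eq]
      omega))

/-- the transition operator -/
noncomputable def tr (κ : Kernel S S) (h : S → ℝ≥0∞) (x : S) : ℝ≥0∞ := ∫⁻ y, h y ∂(κ x)

/-- the probability of visiting the sets of the list after the state `x` -/
noncomputable def pl (κ : Kernel S S) : List (Set S) → S → ℝ≥0∞
  | [], _ => 1
  | G :: L, x => tr κ (G.indicator (pl κ L)) x

theorem tr_meas (κ : Kernel S S) {h : S → ℝ≥0∞} (hh : Measurable h) : Measurable (tr κ h) :=
  hh.lintegral_kernel

theorem pl_meas (κ : Kernel S S) (L : List (Set S)) (hL : ∀ G ∈ L, MeasurableSet G) : Measurable (pl κ L) := by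
  induction L with
  | nil => exact measurable_const
  | cons G L ih =>
    exact tr_meas κ ((ih fun H hH => hL H (List.mem_cons_of_mem _ hH)).indicator (hL G List.mem_cons_self))

theorem pathProb_eq (κ : Kernel S S) (L : List (Set S)) (hL : ∀ G ∈ L, MeasurableSet G) (x : S) :
    pathProb κ L.length (fun j => L.getD j Set.univ) x = pl κ L x := by
  induction L generalizing x with
  | nil => rfl
  | cons G L ih =>
    have hL' : ∀ H ∈ L, MeasurableSet H := fun H hH => hL H (List.mem_cons_of_mem _ hH)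
    rw [List.length_cons, pathProb, pl, tr, lintegral_indicator (hL G List.mem_cons_self)]
    simp only [List.getD_cons_zero, List.getD_cons_succ]
    exact lintegral_congr fun y => ih hL' y

/-- the law of a cylinder -/
theorem IsMarkovProcess.cyl_law {M : ℤ → Ω → S} {π : Measure S} {κ : Kernel S S}
    (h : IsMarkovProcess μ M π κ) (i : ℤ) (G : Set S) (L : List (Set S)) (hG : MeasurableSet G)
    (hL : ∀ G ∈ L, MeasurableSet G) : μ (cyl M i (G :: L)) = ∫⁻ x, G.indicator (pl κ L) x ∂π := by
  have h1 := h.law i L.length (fun j => (G :: L).getD j Set.univ) (fun j => by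
    rcases j with _ | j
    · simpa using hG
    · rw [List.getD_cons_succ]
      rcases Nat.lt_or_ge j L.length with hj | hj
      · rw [List.getD_eq_getElem _ _ hj]
        exact hL _ (List.getElem_mem hj)
      · rw [List.getD_eq_default _ _ hj]
        exact MeasurableSet.univ)
  have h2 : cyl M i (G :: L) = {ω | ∀ j : ℕ, j ≤ L.length → M (i + j) ω ∈ (G :: L).getD j Set.univ} := by
    ext ω
    rw [mem_cyl, Set.mem_ofPred_eq]
    refine forall_congr' fun j => ?_
    rw [List.length_cons, Nat.lt_succ_iff]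
  rw [h2, h1, lintegral_indicator hG]
  simp only [List.getD_cons_zero, List.getD_cons_succ]
  exact lintegral_congr fun y => pathProb_eq κ L hL y

section

variable {π : Measure S} [IsProbabilityMeasure π] {κ : Kernel S S} [IsMarkovKernel κ]

theorem swap_inv (hrev : κ.IsReversible π) : (π ⊗ₘ κ).map Prod.swap = π ⊗ₘ κ := by
  refine Measure.ext_prod fun {s t} hs ht => ?_
  rw [Measure.map_apply measurable_swap (hs.prod ht), Set.preimage_swap_prod,
    Measure.compProd_apply_prod ht hs, Measure.compProd_apply_prod hs ht]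
  exact hrev ht hs

theorem tr_symm (hrev : κ.IsReversible π) {h a : S → ℝ≥0∞} (hh : Measurable h) (ha : Measurable a) :
    ∫⁻ x, tr κ h x * a x ∂π = ∫⁻ x, h x * tr κ a x ∂π := by
  have m1 : Measurable fun t : S × S => h t.2 * a t.1 := (hh.comp measurable_snd).mul (ha.comp measurable_fst)
  have m2 : Measurable fun t : S × S => h t.1 * a t.2 := (hh.comp measurable_fst).mul (ha.comp measurable_snd)
  have h1 : ∫⁻ x, tr κ h x * a x ∂π = ∫⁻ t, h t.2 * a t.1 ∂(π ⊗ₘ κ) := by
    rw [Measure.lintegral_compProd m1]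
    refine lintegral_congr fun x => ?_
    rw [tr, ← lintegral_mul_const _ hh]
  have h2 : ∫⁻ x, h x * tr κ a x ∂π = ∫⁻ t, h t.1 * a t.2 ∂(π ⊗ₘ κ) := by
    rw [Measure.lintegral_compProd m2]
    refine lintegral_congr fun x => ?_
    rw [tr, ← lintegral_const_mul _ ha]
  rw [h1, h2]
  conv_lhs => rw [← swap_inv hrev]
  rw [lintegral_map m1 measurable_swap]
  rfl

theorem iter_meas (n : ℕ) {h : S → ℝ≥0∞} (hh : Measurable h) : Measurable ((tr κ)^[n] h) := by
  induction n with
  | zero => exact hh
  | succ n ih => rw [Function.iterate_succ_apply']; exact tr_meas κ ih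

theorem iter_symm (hrev : κ.IsReversible π) (n : ℕ) : ∀ {h a : S → ℝ≥0∞}, Measurable h → Measurable a →
    ∫⁻ x, (tr κ)^[n] h x * a x ∂π = ∫⁻ x, h x * (tr κ)^[n] a x ∂π := by
  induction n with
  | zero => intro h a _ _; rfl
  | succ n ih =>
    intro h a hh ha
    rw [Function.iterate_succ_apply' (tr κ) n h, tr_symm hrev (iter_meas n hh) ha, ih hh (tr_meas κ ha),
      Function.iterate_succ_apply]

theorem tr_one : tr κ (fun _ => 1) = fun _ => 1 := by
  funext x
  rw [tr]
  simp

theorem tr_le {h : S → ℝ≥0∞} (hh : ∀ x, h x ≤ 1) (x : S) : tr κ h x ≤ 1 := by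
  have h1 : tr κ h x ≤ tr κ (fun _ => 1) x := lintegral_mono fun y => hh y
  rwa [tr_one] at h1

theorem iter_le (n : ℕ) {h : S → ℝ≥0∞} (hh : ∀ x, h x ≤ 1) (x : S) : (tr κ)^[n] h x ≤ 1 := by
  induction n generalizing x with
  | zero => exact hh x
  | succ n ih => rw [Function.iterate_succ_apply']; exact tr_le ih x

theorem pl_le (L : List (Set S)) (x : S) : pl κ L x ≤ 1 := by
  induction L generalizing x with
  | nil => exact le_rfl
  | cons G L ih =>
    refine tr_le (fun y => ?_) x
    exact (Set.indicator_le_self _ _ _).trans (ih y)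

theorem iter_one (n : ℕ) : (tr κ)^[n] (fun _ => 1) = fun _ => 1 := by
  induction n with
  | zero => rfl
  | succ n ih => rw [Function.iterate_succ_apply', ih, tr_one]

/-- a bounded function whose second moment is the square of the mean -/
theorem ae_const {g : S → ℝ≥0∞} (hg : Measurable g) (hg1 : ∀ x, g x ≤ 1) {m : ℝ≥0∞}
    (h1 : ∫⁻ x, g x ∂π = m) (h2 : ∫⁻ x, g x * g x ∂π = m * m) : g =ᵐ[π] fun _ => m := by
  have hm : m ≤ 1 := by
    rw [← h1]
    calc ∫⁻ x, g x ∂π ≤ ∫⁻ _, 1 ∂π := lintegral_mono hg1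
      _ = 1 := by simp
  have hmt : m ≠ ⊤ := ne_top_of_le_ne_top ENNReal.one_ne_top hm
  have hgt : ∀ x, g x ≠ ⊤ := fun x => ne_top_of_le_ne_top ENNReal.one_ne_top (hg1 x)
  set r : S → ℝ := fun x => (g x).toReal with hr
  have hrm : Measurable r := hg.ennreal_toReal
  have hr1 : ∀ x, ‖r x‖ ≤ 1 := by
    intro x
    rw [Real.norm_eq_abs, abs_of_nonneg ENNReal.toReal_nonneg]
    have := ENNReal.toReal_mono ENNReal.one_ne_top (hg1 x)
    simpa using this
  have hi : Integrable r π := Integrable.of_bound hrm.aestronglyMeasurable 1 (ae_of_all _ hr1)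
  have hi2 : Integrable (fun x => r x * r x) π := by
    refine Integrable.of_bound (hrm.mul hrm).aestronglyMeasurable 1 (ae_of_all _ fun x => ?_)
    rw [norm_mul]
    exact mul_le_one₀ (hr1 x) (norm_nonneg _) (hr1 x)
  have e1 : ∫ x, r x ∂π = m.toReal := by
    rw [integral_toReal hg.aemeasurable (ae_of_all _ fun x => (hgt x).lt_top), h1]
  have e2 : ∫ x, r x * r x ∂π = m.toReal * m.toReal := by
    have m1 : Measurable fun x => g x * g x := hg.mul hg
    rw [← ENNReal.toReal_mul, ← h2, ← integral_toReal m1.aemeasurable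
      (ae_of_all _ fun x => (ENNReal.mul_ne_top (hgt x) (hgt x)).lt_top)]
    refine integral_congr_ae (ae_of_all _ fun x => ?_)
    simp only [hr, ENNReal.toReal_mul]
  have e3 : ∫ x, (r x - m.toReal) * (r x - m.toReal) ∂π = 0 := by
    have : ∀ x, (r x - m.toReal) * (r x - m.toReal) =
        r x * r x - 2 * m.toReal * r x + m.toReal * m.toReal := fun x => by ring
    simp_rw [this]
    have i1 : Integrable (fun x => 2 * m.toReal * r x) π := hi.const_mul _
    have i2 : Integrable (fun x => r x * r x - 2 * m.toReal * r x) π := hi2.sub i1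
    rw [integral_add i2 (integrable_const _), integral_sub hi2 i1, integral_const_mul, e1, e2]
    simp only [integral_const, probReal_univ, one_smul]
    ring
  rw [integral_eq_zero_iff_of_nonneg (fun x => mul_self_nonneg _)] at e3
  · filter_upwards [e3] with x hx
    have h3 : r x = m.toReal := by
      have := mul_self_eq_zero.1 hx
      linarith
    rw [← ENNReal.ofReal_toReal (hgt x), ← ENNReal.ofReal_toReal hmt]
    rw [hr] at h3
    simp only at h3
    rw [h3]
  · have : (fun x => (r x - m.toReal) * (r x - m.toReal)) =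
        fun x => r x * r x - 2 * m.toReal * r x + m.toReal * m.toReal := by
      funext x
      ring
    rw [this]
    exact (hi2.sub (hi.const_mul _)).add (integrable_const _)

/-- a bounded function with `⟨b, T ^ n b⟩ = ⟨b, 1⟩ ^ 2` for all large `n` -/
theorem descent (hrev : κ.IsReversible π) {b : S → ℝ≥0∞} (hb : Measurable b) (hb1 : ∀ x, b x ≤ 1) {m : ℝ≥0∞}
    (hm : ∫⁻ x, b x ∂π = m) (N : ℕ) (h0 : ∀ n, N ≤ n → ∫⁻ x, b x * (tr κ)^[n] b x ∂π = m * m) :
    tr κ b =ᵐ[π] fun _ => m := by
  have mean : ∀ j : ℕ, ∫⁻ x, (tr κ)^[j] b x ∂π = m := by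
    intro j
    have h1 := iter_symm hrev j hb (a := fun _ => 1) measurable_const
    rw [iter_one] at h1
    simp only [mul_one] at h1
    rw [h1, hm]
  have key : ∀ j : ℕ, ∫⁻ x, b x * (tr κ)^[j + j] b x ∂π = m * m → (tr κ)^[j] b =ᵐ[π] fun _ => m := by
    intro j hj
    rw [Function.iterate_add_apply, ← iter_symm hrev j hb (iter_meas j hb)] at hj
    exact ae_const (iter_meas j hb) (iter_le j hb1) (mean j) hj
  have step : ∀ j i : ℕ, j ≤ i + i → (tr κ)^[j] b =ᵐ[π] (fun _ => m) →
      (tr κ)^[i] b =ᵐ[π] fun _ => m := by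
    intro j i hji hj
    refine key i ?_
    obtain ⟨d, hd⟩ := Nat.exists_eq_add_of_le hji
    rw [hd, add_comm j d, Function.iterate_add_apply, ← iter_symm hrev d hb (iter_meas j hb)]
    have h1 : ∫⁻ x, (tr κ)^[d] b x * (tr κ)^[j] b x ∂π = ∫⁻ x, (tr κ)^[d] b x * m ∂π := by
      refine lintegral_congr_ae ?_
      filter_upwards [hj] with x hx
      rw [hx]
    rw [h1, lintegral_mul_const _ (iter_meas d hb), mean]
  have all : ∀ j : ℕ, ((tr κ)^[j + 1] b =ᵐ[π] fun _ => m) → (tr κ)^[1] b =ᵐ[π] fun _ => m := by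
    intro j
    induction j using Nat.strong_induction_on with
    | _ j ih =>
      intro hj
      rcases Nat.eq_zero_or_pos j with h1 | h1
      · subst h1
        exact hj
      · rcases Nat.lt_or_ge j 2 with h2 | h2
        · have : j = 1 := by omega
          subst this
          exact step 2 1 (by norm_num) hj
        · exact ih (j / 2) (by omega) (step (j + 1) (j / 2 + 1) (by omega) hj)
  exact all N (key (N + 1) (h0 _ (by omega)))

/-- past and future of a reversible chain -/
theorem past_future {M : ℤ → Ω → S} (h : IsMarkovProcess μ M π κ) (hrev : κ.IsReversible π)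
    (L1 : List (Set S)) : ∀ (G : Set S) (L2 : List (Set S)), (∀ H ∈ L1, MeasurableSet H) →
    MeasurableSet G → (∀ H ∈ L2, MeasurableSet H) →
    ∫⁻ x, pl κ L1 x * G.indicator (pl κ L2) x ∂π = μ (cyl M 0 (L1.reverse ++ G :: L2)) := by
  induction L1 with
  | nil =>
    intro G L2 _ hG hL2
    rw [List.reverse_nil, List.nil_append, h.cyl_law 0 G L2 hG hL2]
    refine lintegral_congr fun x => ?_
    rw [pl, one_mul]
  | cons G1 L1 ih =>
    intro G L2 hL1 hG hL2
    have hG1 : MeasurableSet G1 := hL1 G1 List.mem_cons_self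
    have hL1' : ∀ H ∈ L1, MeasurableSet H := fun H hH => hL1 H (List.mem_cons_of_mem _ hH)
    have hL2' : ∀ H ∈ G :: L2, MeasurableSet H := fun H hH => by
      rcases List.mem_cons.1 hH with rfl | hH
      · exact hG
      · exact hL2 H hH
    have h2 := tr_symm hrev ((pl_meas κ L1 hL1').indicator hG1) ((pl_meas κ L2 hL2).indicator hG)
    have h3 : ∫⁻ x, pl κ (G1 :: L1) x * G.indicator (pl κ L2) x ∂π =
        ∫⁻ x, G1.indicator (pl κ L1) x * pl κ (G :: L2) x ∂π := h2
    rw [h3, List.reverse_cons, List.append_assoc, List.singleton_append, ← ih G1 (G :: L2) hL1' hG1 hL2']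
    refine lintegral_congr fun x => ?_
    by_cases hx : x ∈ G1
    · rw [Set.indicator_of_mem hx, Set.indicator_of_mem hx]
    · rw [Set.indicator_of_notMem hx, Set.indicator_of_notMem hx, zero_mul, mul_zero]

theorem pl_replicate (n : ℕ) (L : List (Set S)) :
    pl κ (List.replicate n Set.univ ++ L) = (tr κ)^[n] (pl κ L) := by
  induction n with
  | zero => rfl
  | succ n ih =>
    rw [List.replicate_succ, List.cons_append, Function.iterate_succ_apply', ← ih]
    funext x
    rw [pl, Set.indicator_univ]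

theorem cls_meas {f : S → C} (hf : Measurable f) (L : List (Set C)) (hL : ∀ H ∈ L, MeasurableSet H) :
    ∀ H ∈ L.map fun H => f ⁻¹' H, MeasurableSet H := by
  intro H hH
  obtain ⟨a, ha, rfl⟩ := List.mem_map.1 hH
  exact hf (hL a ha)

/-- cylinders are stationary -/
theorem cyl_stat {M : ℤ → Ω → S} (h : IsMarkovProcess μ M π κ) (L : List (Set S))
    (hL : ∀ H ∈ L, MeasurableSet H) (i j : ℤ) : μ (cyl M i L) = μ (cyl M j L) := by
  rcases L with _ | ⟨G, L⟩
  · rfl
  · have hG : MeasurableSet G := hL G List.mem_cons_self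
    have hL' : ∀ H ∈ L, MeasurableSet H := fun H hH => hL H (List.mem_cons_of_mem _ hH)
    rw [h.cyl_law i G L hG hL', h.cyl_law j G L hG hL']

/-- the future does not depend on the present state -/
theorem rev_const {M : ℤ → Ω → S} (h : IsMarkovProcess μ M π κ) (hrev : κ.IsReversible π)
    {f : S → C} (hf : Measurable f) (k : ℕ) (hk : IsDependent μ (fun i ω => f (M i ω)) k) (u : Set C)
    (L : List (Set C)) (huL : ∀ H ∈ u :: L, MeasurableSet H) :
    pl κ ((u :: L).map fun H => f ⁻¹' H) =ᵐ[π] fun _ => μ (cyl M 0 ((u :: L).map fun H => f ⁻¹' H)) := by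
  have hGL := cls_meas hf (u :: L) huL
  set G : Set S := f ⁻¹' u with hG
  set L' : List (Set S) := L.map fun H => f ⁻¹' H with hL'
  have hmap : (u :: L).map (fun H => f ⁻¹' H) = G :: L' := rfl
  rw [hmap] at hGL ⊢
  have hGm : MeasurableSet G := hGL G List.mem_cons_self
  have hLm : ∀ H ∈ L', MeasurableSet H := fun H hH => hGL H (List.mem_cons_of_mem _ hH)
  set m : ℝ≥0∞ := μ (cyl M 0 (G :: L')) with hm
  set b : S → ℝ≥0∞ := G.indicator (pl κ L') with hb
  have hbm : Measurable b := (pl_meas κ L' hLm).indicator hGm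
  have hb1 : ∀ x, b x ≤ 1 := fun x => (Set.indicator_le_self _ _ _).trans (pl_le L' x)
  have hmean : ∫⁻ x, b x ∂π = m := by
    rw [hm, h.cyl_law 0 G L' hGm hLm]
  refine descent hrev hbm hb1 hmean (k + 1) fun n hn => ?_
  obtain ⟨t, rfl⟩ := Nat.exists_eq_add_of_le' (show 1 ≤ n by omega)
  have e1 : (tr κ)^[t + 1] b = pl κ (List.replicate t Set.univ ++ G :: L') := by
    rw [pl_replicate, Function.iterate_succ_apply]
    rfl
  have hR : ∀ H ∈ List.replicate t (Set.univ : Set S) ++ G :: L', MeasurableSet H := by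
    intro H hH
    rcases List.mem_append.1 hH with hH | hH
    · rw [List.eq_of_mem_replicate hH]
      exact MeasurableSet.univ
    · exact hGL H hH
  have e2 := past_future h hrev (List.replicate t Set.univ ++ G :: L') G L' hR hGm hLm
  rw [List.reverse_append, List.reverse_replicate] at e2
  have e3 : (G :: L').reverse = ((u :: L).reverse).map fun H => f ⁻¹' H := by
    rw [List.map_reverse, hmap]
  have e4 : μ (cyl M 0 (G :: L').reverse) = m := by
    have e5 := past_future h hrev L' G [] hLm hGm (fun H hH => absurd hH List.not_mem_nil)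
    rw [← List.reverse_cons] at e5
    rw [← e5, ← hmean]
    refine lintegral_congr fun x => ?_
    rw [hb]
    by_cases hx : x ∈ G
    · rw [Set.indicator_of_mem hx, Set.indicator_of_mem hx, pl, mul_one]
    · rw [Set.indicator_of_notMem hx, Set.indicator_of_notMem hx, mul_zero]
  have e6 : μ (cyl M 0 ((G :: L').reverse ++ List.replicate t Set.univ ++ G :: L')) = m * m := by
    rw [List.append_assoc, cyl_append, cyl_append, cyl_univ, Set.univ_inter, List.length_replicate]
    have e7 := cyl_indep M f hk (u :: L).reverse (u :: L)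
      (fun H hH => huL H (List.mem_reverse.1 hH)) huL 0 t (by omega)
    rw [← e3, hmap, e4] at e7
    have e8 : (G :: L').reverse.length = (u :: L).reverse.length := by rw [e3, List.length_map]
    rw [e8, e7]
    congr 1
    exact cyl_stat h _ hGL _ _
  rw [e6] at e2
  rw [← e2, e1]
  refine lintegral_congr fun x => ?_
  rw [hb, mul_comm]

/-- the process is independent -/
theorem rev_prod {M : ℤ → Ω → S} (h : IsMarkovProcess μ M π κ) (hrev : κ.IsReversible π)
    {f : S → C} (hf : Measurable f) (k : ℕ) (hk : IsDependent μ (fun i ω => f (M i ω)) k)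
    [IsProbabilityMeasure μ] (L : List (Set C)) (hL : ∀ H ∈ L, MeasurableSet H) : ∀ i : ℤ,
    μ (cyl M i (L.map fun H => f ⁻¹' H)) = (L.map fun H => μ {ω | f (M 0 ω) ∈ H}).prod := by
  induction L with
  | nil => intro i; simp [cyl]
  | cons u L ih =>
    intro i
    have hL' : ∀ H ∈ L, MeasurableSet H := fun H hH => hL H (List.mem_cons_of_mem _ hH)
    have hGm : MeasurableSet (f ⁻¹' u) := hf (hL u List.mem_cons_self)
    have hLm := cls_meas hf L hL'
    rw [List.map_cons, List.map_cons, List.prod_cons, ← ih hL' 0, h.cyl_law i _ _ hGm hLm]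
    have h1 := h.cyl_law 0 (f ⁻¹' u) [] hGm (fun H hH => absurd hH List.not_mem_nil)
    have h2 : μ {ω | f (M 0 ω) ∈ u} = μ (cyl M 0 [f ⁻¹' u]) := by
      congr 1
      ext ω
      simp [cyl]
    rw [h2, h1]
    rcases L with _ | ⟨v, L⟩
    · simp [cyl]
    · have h3 := rev_const h hrev hf k hk v L hL'
      have h4 : ∫⁻ x, (f ⁻¹' u).indicator (pl κ ((v :: L).map fun H => f ⁻¹' H)) x ∂π =
          ∫⁻ x, (f ⁻¹' u).indicator (pl κ []) x * μ (cyl M 0 ((v :: L).map fun H => f ⁻¹' H)) ∂π := by
        refine lintegral_congr_ae ?_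
        filter_upwards [h3] with x hx
        by_cases hxu : x ∈ f ⁻¹' u
        · rw [Set.indicator_of_mem hxu, Set.indicator_of_mem hxu, hx, pl, one_mul]
        · rw [Set.indicator_of_notMem hxu, Set.indicator_of_notMem hxu, zero_mul]
      rw [h4, lintegral_mul_const _ ((pl_meas κ [] (fun H hH => absurd hH List.not_mem_nil)).indicator hGm)]

/-- the process is independent; windows -/
theorem rev_win {M : ℤ → Ω → S} (h : IsMarkovProcess μ M π κ) (hrev : κ.IsReversible π)
    {f : S → C} (hf : Measurable f) (k : ℕ) (hk : IsDependent μ (fun i ω => f (M i ω)) k)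
    [IsProbabilityMeasure μ] (i : ℤ) (n : ℕ) (T : Fin n → Set C) (hT : ∀ j, MeasurableSet (T j)) :
    μ {ω | ∀ j : Fin n, f (M (i + (j : ℕ)) ω) ∈ T j} = ∏ j : Fin n, μ {ω | f (M 0 ω) ∈ T j} := by
  have h1 := rev_prod h hrev hf k hk (List.ofFn T) (fun H hH => by
    obtain ⟨j, rfl⟩ := List.mem_ofFn.1 hH
    exact hT j) i
  rw [List.map_ofFn, List.map_ofFn, List.prod_ofFn] at h1
  have h2 : cyl M i (List.ofFn ((fun H => f ⁻¹' H) ∘ T)) =
      {ω | ∀ j : Fin n, f (M (i + (j : ℕ)) ω) ∈ T j} := by
    ext ω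
    rw [mem_cyl_ofFn]
    exact Iff.rfl
  rw [← h2, h1]
  rfl

theorem rev_one {M : ℤ → Ω → S} (h : IsMarkovProcess μ M π κ) (hrev : κ.IsReversible π)
    {f : S → C} (hf : Measurable f) (k : ℕ) (hk : IsDependent μ (fun i ω => f (M i ω)) k)
    [IsProbabilityMeasure μ] (i : ℤ) (T : Set C) (hT : MeasurableSet T) :
    μ {ω | f (M i ω) ∈ T} = μ {ω | f (M 0 ω) ∈ T} := by
  have h1 := rev_win h hrev hf k hk i 1 (fun _ => T) (fun _ => hT)
  simpa using h1

/-- the variables are independent -/
theorem rev_iIndep {M : ℤ → Ω → S} (h : IsMarkovProcess μ M π κ) (hrev : κ.IsReversible π)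
    {f : S → C} (hf : Measurable f) (k : ℕ) (hk : IsDependent μ (fun i ω => f (M i ω)) k)
    [IsProbabilityMeasure μ] : iIndepFun (fun i ω => f (M i ω)) μ := by
  classical
  rw [iIndepFun_iff_measure_inter_preimage_eq_mul]
  intro F sets hsets
  obtain ⟨a, n, hF⟩ : ∃ (a : ℤ) (n : ℕ), ∀ i ∈ F, ∃ j : Fin n, a + (j : ℕ) = i := by
    obtain ⟨N, hN⟩ : ∃ N : ℕ, ∀ i ∈ F, i.natAbs ≤ N := ⟨F.sup Int.natAbs, fun i hi => Finset.le_sup hi⟩
    refine ⟨-N, 2 * N + 1, fun i hi => ?_⟩
    have := hN i hi
    refine ⟨⟨(i + N).toNat, by omega⟩, ?_⟩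
    simp only
    omega
  set T : ℤ → Set C := fun i => if i ∈ F then sets i else Set.univ with hT
  have hTm : ∀ i, MeasurableSet (T i) := by
    intro i
    rw [hT]
    simp only
    split_ifs with hi
    · exact hsets i hi
    · exact MeasurableSet.univ
  have h1 := rev_win h hrev hf k hk a n (fun j => T (a + (j : ℕ))) (fun j => hTm _)
  have h2 : (⋂ i ∈ F, (fun ω => f (M i ω)) ⁻¹' sets i) =
      {ω | ∀ j : Fin n, f (M (a + (j : ℕ)) ω) ∈ T (a + (j : ℕ))} := by
    ext ω
    simp only [Set.mem_iInter, Set.mem_preimage, Set.mem_ofPred_eq]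
    constructor
    · intro hω j
      rw [hT]
      simp only
      split_ifs with hj
      · exact hω _ hj
      · exact Set.mem_univ _
    · intro hω i hi
      obtain ⟨j, rfl⟩ := hF i hi
      have := hω j
      rw [hT] at this
      simp only [hi, if_true] at this
      exact this
  rw [h2, h1]
  set g : ℤ → ℝ≥0∞ := fun i => μ {ω | f (M 0 ω) ∈ T i} with hg
  have h3 : ∏ j : Fin n, g (a + (j : ℕ)) = ∏ i ∈ Finset.univ.image (fun j : Fin n => a + ((j : ℕ) : ℤ)), g i := by
    rw [Finset.prod_image]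
    intro j _ j' _ hjj
    simp only at hjj
    exact Fin.ext (by omega)
  have h4 : ∏ i ∈ F, g i = ∏ i ∈ Finset.univ.image (fun j : Fin n => a + ((j : ℕ) : ℤ)), g i := by
    refine Finset.prod_subset (fun i hi => ?_) fun i _ hi => ?_
    · obtain ⟨j, hj⟩ := hF i hi
      exact Finset.mem_image.2 ⟨j, Finset.mem_univ _, hj⟩
    · rw [hg, hT]
      simp only [hi, if_false, Set.mem_univ]
      have : {ω : Ω | True} = Set.univ := by ext; simp
      rw [this, measure_univ]
  calc ∏ j : Fin n, μ {ω | f (M 0 ω) ∈ T (a + (j : ℕ))} = ∏ j : Fin n, g (a + (j : ℕ)) := rfl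
    _ = ∏ i ∈ F, g i := by rw [h3, h4]
    _ = _ := by
      refine Finset.prod_congr rfl fun i hi => ?_
      have h5 := rev_one h hrev hf k hk i (sets i) (hsets i hi)
      rw [hg, hT]
      simp only [hi, if_true]
      rw [← h5]
      rfl

end

end Pool.Agent.MP_7d88aa.Gen
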