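import Pool.Agent.Lib.MP_7d88aa_pr.Meas

/-!
The theorem.
-/

set_option autoImplicit false
set_option linter.unusedSectionVars false

namespace Pool.Agent.MP_7d88aa

open MeasureTheory ProbabilityTheory
open scoped InnerProductSpace

variable {Ω S : Type} [MeasurableSpace Ω] [Countable S] {μ : Measure Ω} [IsProbabilityMeasure μ]
  {M : ℤ → Ω → S} {p : S → ℝ} {P : S → S → ℝ} {w : S → ℝ}

theorem IsMarkovChain.stat (h : IsMarkovChain μ M p P) (y : S) :
    HasSum (fun x => p x * P x y) (p y) := by
  classical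
  have h1 := h.cyl_law 0 [{y}]
  have h2 : μ.real (cyl M 0 [{y}]) = p y := by
    rw [← h.p_eq 0 y]
    congr 1
    ext ω
    simp [cyl]
  rw [h2] at h1
  refine h1.congr_fun fun x => ?_
  congr 1
  rw [gl]
  simp only [gl, mul_one]
  have h3 : HasSum (fun z => pt P {y} x z) (P x y) := by
    have := hasSum_single (f := fun z => pt P {y} x z) y (fun z hz => by simp [pt, hz])
    simpa [pt] using this
  exact h3.tsum_eq.symm

theorem IsMarkovChain.p_sum (h : IsMarkovChain μ M p P) : HasSum p 1 := by
  have h1 := h.cyl_law 0 []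
  simpa [cyl, gl] using h1

theorem IsMarkovChain.pw (h : IsMarkovChain μ M p P) (hw : Wt P w) : Summable fun x => |p x * w x| := by
  have h1 := hw.moment h.p_nn h.p_sum.summable h.stat
  exact h1.abs

/-- the law in the realisation -/
theorem IsMarkovChain.real (h : IsMarkovChain μ M p P) (hw : Wt P w) {H : Type} [NormedAddCommGroup H]
    [InnerProductSpace ℝ H] [CompleteSpace H] (e : HilbertBasis S ℝ H) (i : ℤ) (L : List (Set S)) :
    ⟪vec e (fun x => p x * w x), wd (AS e P w) L (rv e w)⟫_ℝ = μ.real (cyl M i L) :=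
  (hw.inner_wd e p (h.pw hw) L).unique (h.cyl_law i L)

/-- the list of the colour classes of a word -/
def cls {q : ℕ} (f : S → Fin q) {n : ℕ} (u : Fin n → Fin q) : List (Set S) :=
  List.ofFn fun j => f ⁻¹' {u j}

theorem cls_length {q : ℕ} (f : S → Fin q) {n : ℕ} (u : Fin n → Fin q) : (cls f u).length = n := by
  rw [cls, List.length_ofFn]

theorem mem_cyl_ofFn {n : ℕ} : ∀ (G : Fin n → Set S) (i : ℤ) (ω : Ω),
    ω ∈ cyl M i (List.ofFn G) ↔ ∀ j : Fin n, M (i + (j : ℕ)) ω ∈ G j := by
  induction n with
  | zero => intro G i ω; simp [cyl]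
  | succ n ih =>
    intro G i ω
    rw [List.ofFn_succ, cyl, Set.mem_inter_iff, ih, Fin.forall_fin_succ]
    refine and_congr ?_ ?_
    · simp
    · refine forall_congr' fun j => ?_
      have : i + 1 + ((j : ℕ) : ℤ) = i + ((j.succ : ℕ) : ℤ) := by
        rw [Fin.val_succ]
        push_cast
        ring
      rw [this]

/-- cylinders of words over blocks are measurable with respect to the process on an index set -/
theorem meas_comap {q : ℕ} (f : S → Fin q) (A : Set ℤ) : ∀ (L : List (Fin q)) (i : ℤ),
    (∀ j : ℕ, j < L.length → i + j ∈ A) →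
    MeasurableSet[MeasurableSpace.comap (fun (ω : Ω) (a : A) => f (M a ω)) inferInstance]
      (cyl M i (L.map fun a => f ⁻¹' {a})) := by
  intro L
  induction L with
  | nil => intro i _; exact MeasurableSet.univ
  | cons c L ih =>
    intro i hi
    rw [List.map_cons, cyl]
    refine MeasurableSet.inter ?_ ?_
    · have hiA : i ∈ A := by simpa using hi 0 (by simp)
      refine ⟨(fun x : A → Fin q => x ⟨i, hiA⟩) ⁻¹' {c}, measurable_pi_apply _ (MeasurableSet.singleton c), ?_⟩
      ext ω
      simp
    · refine ih (i + 1) fun j hj => ?_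
      have := hi (j + 1) (by simpa using hj)
      push_cast at this
      rwa [add_assoc, add_comm (1 : ℤ)]

theorem cyl_indep {q : ℕ} (f : S → Fin q) {k : ℕ}
    (hk : IsDependent μ (fun i ω => f (M i ω)) k) (L L' : List (Fin q)) (i : ℤ) (t : ℕ) (ht : k ≤ t) :
    μ.real (cyl M i (L.map fun a => f ⁻¹' {a}) ∩
        cyl M (i + L.length + t) (L'.map fun a => f ⁻¹' {a})) =
      μ.real (cyl M i (L.map fun a => f ⁻¹' {a})) *
        μ.real (cyl M (i + L.length + t) (L'.map fun a => f ⁻¹' {a})) := by
  set A : Set ℤ := {a | a < i + L.length} with hA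
  set B : Set ℤ := {b | i + L.length + t ≤ b} with hB
  have h1 := hk A B (fun a ha b hb => by
    rw [hA, Set.mem_ofPred_eq] at ha
    rw [hB, Set.mem_ofPred_eq] at hb
    rw [abs_sub_comm, lt_abs]
    left
    have : (k : ℤ) ≤ t := by exact_mod_cast ht
    omega)
  rw [IndepFun_iff_Indep, Indep_iff] at h1
  have h2 := h1 _ _ (meas_comap (M := M) f A L i (fun j hj => by
      rw [hA, Set.mem_ofPred_eq]
      omega))
    (meas_comap (M := M) f B L' (i + L.length + t) (fun j hj => by
      rw [hB, Set.mem_ofPred_eq]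
      omega))
  rw [Measure.real, h2, ENNReal.toReal_mul]
  rfl

/-- the list of sets of a list of blocks -/
def blk {q : ℕ} (f : S → Fin q) {n : ℕ} (L : List (Fin n → Fin q)) : List (Set S) :=
  L.flatMap (cls f)

theorem blk_map {q : ℕ} (f : S → Fin q) {n : ℕ} (L : List (Fin n → Fin q)) :
    blk f L = (L.flatMap fun u => List.ofFn u).map fun a => f ⁻¹' {a} := by
  rw [blk, List.map_flatMap]
  congr 1
  funext u
  rw [cls, List.map_ofFn]
  rfl

theorem wd_blk {q : ℕ} (f : S → Fin q) {n : ℕ} {H : Type} [NormedAddCommGroup H]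
    [InnerProductSpace ℝ H] [CompleteSpace H] (B : Set S → H →L[ℝ] H) (L : List (Fin n → Fin q)) :
    wd (fun u : Fin n → Fin q => wd B (cls f u)) L = wd B (blk f L) := by
  induction L with
  | nil => rfl
  | cons u L ih =>
    have h1 : blk f (u :: L) = cls f u ++ blk f L := by
      rw [blk, List.flatMap_cons]
      rfl
    rw [wd, ih, h1, wd_append]

theorem wd_ofFn_sum {q : ℕ} {H : Type} [NormedAddCommGroup H] [InnerProductSpace ℝ H]
    [CompleteSpace H] (f : S → Fin q) (B : Set S → H →L[ℝ] H)
    (hB : ∑ a : Fin q, B (f ⁻¹' {a}) = B Set.univ) (n : ℕ) :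
    ∑ u : Fin n → Fin q, wd B (cls f u) = wd B (List.replicate n Set.univ) := by
  induction n with
  | zero => simp [cls, wd]
  | succ n ih =>
    rw [← (Fin.consEquiv fun _ : Fin (n + 1) => Fin q).sum_comp, Fintype.sum_prod_type]
    have h1 : ∀ (a : Fin q) (u : Fin n → Fin q),
        wd B (cls f ((Fin.consEquiv fun _ : Fin (n + 1) => Fin q) (a, u))) =
          B (f ⁻¹' {a}) * wd B (cls f u) := by
      intro a u
      rw [cls, List.ofFn_succ, wd]
      rfl
    simp_rw [h1, ← Finset.mul_sum, ih, ← Finset.sum_mul, hB]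
    rfl

theorem wd_replicate {H : Type} [NormedAddCommGroup H] [InnerProductSpace ℝ H]
    [CompleteSpace H] (B : Set S → H →L[ℝ] H) (L : List (Set S)) (k : ℕ) :
    (wd B L) ^ k = wd B (List.replicate k L).flatten := by
  induction k with
  | zero => rfl
  | succ k ih => rw [pow_succ', ih, List.replicate_succ, List.flatten_cons, wd_append]

theorem flat_univ (n k : ℕ) : (List.replicate k (List.replicate n (Set.univ : Set S))).flatten =
    List.replicate (k * n) Set.univ := by
  rw [List.flatten_replicate_replicate]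

theorem nuc_cls (hw : Wt P w) {q : ℕ} (f : S → Fin q) {H : Type} [NormedAddCommGroup H]
    [InnerProductSpace ℝ H] [CompleteSpace H] (e : HilbertBasis S ℝ H) {n : ℕ} (hn : 1 ≤ n)
    (u : Fin n → Fin q) : Nuc (wd (AS e P w) (cls f u)) := by
  obtain ⟨n, rfl⟩ := Nat.exists_eq_add_of_le' hn
  rw [cls, List.ofFn_succ_last, wd_append]
  exact Nuc.comp_left (by simpa [wd] using hw.AS_nuc e _) _

/-- the event of the periodic word -/
theorem cyl_sub {q : ℕ} (f : S → Fin q) {n : ℕ} (u : Fin n → Fin q) (m : ℕ) : ∀ i : ℤ,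
    cyl M i (List.replicate m (cls f u)).flatten ⊆
      {ω | ∀ t : ℕ, t < m → ∀ j : Fin n, f (M (i + (n * t + j : ℕ)) ω) = u j} := by
  induction m with
  | zero => intro i ω _ t ht; omega
  | succ m ih =>
    intro i ω hω
    rw [List.replicate_succ, List.flatten_cons, cyl_append, Set.mem_inter_iff, cls_length] at hω
    intro t ht j
    rcases t with _ | t
    · have h1 := (mem_cyl_ofFn _ i ω).1 hω.1 j
      simpa using h1
    · have h1 := ih (i + n) hω.2 t (by omega) j
      rw [← h1]
      congr 2
      push_cast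
      ring

theorem main_thm (h : IsMarkovChain μ M p P) (hw : Wt P w) {q : ℕ} (f : S → Fin q) (k : ℕ)
    (hk : IsDependent μ (fun i ω => f (M i ω)) k) (n : ℕ) (hn : 1 ≤ n) :
    ∃ u : Fin n → Fin q, ∀ m : ℕ,
      0 < μ {ω | ∀ t : ℕ, t < m → ∀ j : Fin n, f (M ((n * t + j : ℕ) : ℤ) ω) = u j} := by
  classical
  by_contra hcon
  push Not at hcon
  choose m hm using hcon
  have hzero : ∀ u : Fin n → Fin q, ∀ i : ℤ,
      μ.real (cyl M i (List.replicate (m u) (cls f u)).flatten) = 0 := by
    intro u i
    have h1 : μ.real (cyl M i (List.replicate (m u) (cls f u)).flatten) =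
        μ.real (cyl M 0 (List.replicate (m u) (cls f u)).flatten) :=
      (h.cyl_law i _).unique (h.cyl_law 0 _)
    rw [h1]
    have h2 := cyl_sub (M := M) f u (m u) 0
    simp only [zero_add] at h2
    have h3 := measure_mono (μ := μ) h2
    rw [Measure.real, le_antisymm (h3.trans (hm u)) (zero_le), ENNReal.toReal_zero]
  -- the Hilbert space
  let H : Type := lp (fun _ : S => ℝ) 2
  let e : HilbertBasis S ℝ H := HilbertBasis.ofRepr (LinearIsometryEquiv.refl ℝ _)
  set B := AS e P w with hB
  set l : H := vec e (fun x => p x * w x) with hl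
  set r : H := rv e w with hr
  have hreal : ∀ (i : ℤ) (L : List (Set S)), ⟪l, wd B L r⟫_ℝ = μ.real (cyl M i L) :=
    fun i L => h.real hw e i L
  have hsum := wd_ofFn_sum f B (hw.AS_sum e f) n
  refine core (H := H) (fun u : Fin n → Fin q => wd B (cls f u)) (fun u => nuc_cls hw f e hn u) l r
    k ?_ ?_ ?_ m ?_
  · have h1 := hreal 0 []
    rw [wd, one_apply_eq_self, cyl, probReal_univ] at h1
    exact h1
  · rw [hsum, hreal 0, cyl_univ, probReal_univ]
  · intro u v
    rw [hsum, wd_replicate, flat_univ, wd_blk, wd_blk, ← mul_apply_eq_comp, ← mul_apply_eq_comp,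
      ← wd_append, ← wd_append, hreal 0, hreal 0,
      hreal (0 + ((blk f u).length : ℤ) + ((k + 1) * n : ℕ)) (blk f v), List.append_assoc,
      cyl_append, cyl_append, cyl_univ, Set.univ_inter, List.length_replicate]
    have h1 := cyl_indep (M := M) f hk (u.flatMap fun u => List.ofFn u) (v.flatMap fun u => List.ofFn u) 0
      ((k + 1) * n) (by nlinarith)
    rw [← blk_map, ← blk_map] at h1
    have h2 : (blk f u).length = (u.flatMap fun u => List.ofFn u).length := by
      rw [blk_map, List.length_map]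
    rw [h2]
    exact h1
  · intro u v v'
    rw [wd_replicate, wd_blk, wd_blk, ← mul_apply_eq_comp, ← mul_apply_eq_comp,
      ← wd_append, ← wd_append, hreal 0, List.append_assoc, cyl_append, cyl_append]
    refine le_antisymm ?_ measureReal_nonneg
    rw [← hzero u (0 + (blk f v).length)]
    exact measureReal_mono (fun ω hω => hω.2.1)

end Pool.Agent.MP_7d88aa
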