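import Pool.Agent.Lib.MP_7d88aa_pr.Moment
import Pool.Agent.Lib.MP_7d88aa_pr.Defs

/-!
The probabilities of cylinders.
-/

set_option autoImplicit false
set_option linter.unusedSectionVars false

namespace Pool.Agent.MP_7d88aa

open MeasureTheory ProbabilityTheory

variable {Ω S : Type} [MeasurableSpace Ω] [Countable S] {μ : Measure Ω} [IsProbabilityMeasure μ]
  {M : ℤ → Ω → S} {p : S → ℝ} {P : S → S → ℝ}

/-- the chain visits the sets of the list one after the other, from the time `i` on -/
def cyl (M : ℤ → Ω → S) : ℤ → List (Set S) → Set Ω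
  | _, [] => Set.univ
  | i, G :: L => {ω | M i ω ∈ G} ∩ cyl M (i + 1) L

theorem cyl_append (M : ℤ → Ω → S) (L L' : List (Set S)) : ∀ i : ℤ,
    cyl M i (L ++ L') = cyl M i L ∩ cyl M (i + L.length) L' := by
  induction L with
  | nil => intro i; simp [cyl]
  | cons G L ih =>
    intro i
    rw [List.cons_append, cyl, cyl, ih, Set.inter_assoc, List.length_cons]
    congr 3
    push_cast
    ring

theorem cyl_univ (M : ℤ → Ω → S) (n : ℕ) : ∀ i : ℤ, cyl M i (List.replicate n Set.univ) = Set.univ := by
  induction n with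
  | zero => intro i; rfl
  | succ n ih => intro i; rw [List.replicate_succ, cyl, ih]; simp

theorem IsMarkovChain.meas_mem (h : IsMarkovChain μ M p P) (i : ℤ) (G : Set S) :
    MeasurableSet {ω | M i ω ∈ G} := by
  have : {ω | M i ω ∈ G} = ⋃ x ∈ G, {ω | M i ω = x} := by
    ext ω
    simp
  rw [this]
  exact MeasurableSet.biUnion (Set.to_countable G) fun x _ => h.meas i x

theorem IsMarkovChain.meas_cyl (h : IsMarkovChain μ M p P) (L : List (Set S)) : ∀ i : ℤ,
    MeasurableSet (cyl M i L) := by
  induction L with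
  | nil => intro i; exact MeasurableSet.univ
  | cons G L ih => intro i; exact (h.meas_mem i G).inter (ih _)

theorem IsMarkovChain.meas_path (h : IsMarkovChain μ M p P) (i : ℤ) (n : ℕ) (x : ℕ → S) :
    MeasurableSet {ω | ∀ j : ℕ, j ≤ n → M (i + j) ω = x j} := by
  have : {ω | ∀ j : ℕ, j ≤ n → M (i + j) ω = x j} = ⋂ j : ℕ, ⋂ _ : j ≤ n, {ω | M (i + j) ω = x j} := by
    ext ω
    simp
  rw [this]
  exact MeasurableSet.iInter fun j => MeasurableSet.iInter fun _ => h.meas _ _

/-- partition by the state at time `i` -/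
theorem IsMarkovChain.part (h : IsMarkovChain μ M p P) (i : ℤ) {D : Set Ω} (hD : MeasurableSet D) :
    HasSum (fun y => μ.real (D ∩ {ω | M i ω = y})) (μ.real D) := by
  have h1 : D = ⋃ y, D ∩ {ω | M i ω = y} := by
    ext ω
    simp
  have h2 : Pairwise (Function.onFun Disjoint fun y => D ∩ {ω | M i ω = y}) := by
    intro y z hyz
    rw [Function.onFun, Set.disjoint_left]
    rintro ω ⟨-, hy⟩ ⟨-, hz⟩
    exact hyz (hy.symm.trans hz)
  have h3 : ∀ y, MeasurableSet (D ∩ {ω | M i ω = y}) := fun y => hD.inter (h.meas i y)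
  have h4 := measure_iUnion (μ := μ) h2 h3
  rw [← h1] at h4
  have h5 : ∑' y, μ (D ∩ {ω | M i ω = y}) ≠ ⊤ := by
    rw [← h4]
    exact measure_ne_top μ D
  have h6 := ENNReal.summable_toReal h5
  have h7 : μ.real D = ∑' y, μ.real (D ∩ {ω | M i ω = y}) := by
    rw [Measure.real, h4, ENNReal.tsum_toReal_eq (fun y => measure_ne_top μ _)]
    rfl
  rw [h7]
  exact h6.hasSum

theorem IsMarkovChain.path_cyl (h : IsMarkovChain μ M p P) (L : List (Set S)) :
    ∀ (i : ℤ) (n : ℕ) (x : ℕ → S),
      μ.real ({ω | ∀ j : ℕ, j ≤ n → M (i + j) ω = x j} ∩ cyl M (i + n + 1) L) =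
        (p (x 0) * ∏ j ∈ Finset.range n, P (x j) (x (j + 1))) * gl P L (x n) := by
  classical
  induction L with
  | nil =>
    intro i n x
    rw [cyl, Set.inter_univ, h.law, gl, mul_one]
  | cons G L ih =>
    intro i n x
    set c : ℝ := p (x 0) * ∏ j ∈ Finset.range n, P (x j) (x (j + 1)) with hc
    have hD : MeasurableSet ({ω | ∀ j : ℕ, j ≤ n → M (i + j) ω = x j} ∩ cyl M (i + n + 1) (G :: L)) :=
      (h.meas_path i n x).inter (h.meas_cyl _ _)
    have h1 := h.part (i + n + 1) hD
    have h2 : ∀ y, μ.real (({ω | ∀ j : ℕ, j ≤ n → M (i + j) ω = x j} ∩ cyl M (i + n + 1) (G :: L)) ∩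
        {ω | M (i + n + 1) ω = y}) = c * (pt P G (x n) y * gl P L y) := by
      intro y
      by_cases hy : y ∈ G
      · set x' : ℕ → S := fun j => if j = n + 1 then y else x j with hx'
        have h3 := ih i (n + 1) x'
        have h4 : ({ω | ∀ j : ℕ, j ≤ n → M (i + j) ω = x j} ∩ cyl M (i + n + 1) (G :: L)) ∩
            {ω | M (i + n + 1) ω = y} =
            {ω | ∀ j : ℕ, j ≤ n + 1 → M (i + j) ω = x' j} ∩ cyl M (i + (n + 1 : ℕ) + 1) L := by
          ext ω
          have e1 : i + ((n + 1 : ℕ) : ℤ) = i + n + 1 := by push_cast; ring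
          simp only [cyl, Set.mem_inter_iff, Set.mem_ofPred_eq, e1]
          constructor
          · rintro ⟨⟨ha, -, hb⟩, hcc⟩
            refine ⟨fun j hj => ?_, hb⟩
            rcases Nat.lt_or_ge n j with hj' | hj'
            · have : j = n + 1 := by omega
              subst this
              rw [e1, hx']
              simpa using hcc
            · rw [hx']
              simp only
              rw [if_neg (by omega)]
              exact ha j hj'
          · rintro ⟨ha, hb⟩
            have hlast := ha (n + 1) le_rfl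
            rw [e1, hx'] at hlast
            simp only [if_true] at hlast
            refine ⟨⟨fun j hj => ?_, by rw [hlast]; exact hy, hb⟩, hlast⟩
            have := ha j (by omega)
            rw [hx'] at this
            simp only at this
            rwa [if_neg (by omega)] at this
        rw [h4, h3]
        have e2 : ∏ j ∈ Finset.range (n + 1), P (x' j) (x' (j + 1)) =
            (∏ j ∈ Finset.range n, P (x j) (x (j + 1))) * P (x n) y := by
          rw [Finset.prod_range_succ]
          congr 1
          · refine Finset.prod_congr rfl fun j hj => ?_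
            rw [Finset.mem_range] at hj
            rw [hx']
            simp only
            rw [if_neg (by omega), if_neg (by omega)]
          · rw [hx']
            simp
        have e3 : x' 0 = x 0 := by rw [hx']; simp
        have e4 : x' (n + 1) = y := by rw [hx']; simp
        rw [e2, e3, e4, pt, if_pos hy, hc]
        ring
      · have h4 : ({ω | ∀ j : ℕ, j ≤ n → M (i + j) ω = x j} ∩ cyl M (i + n + 1) (G :: L)) ∩
            {ω | M (i + n + 1) ω = y} = ∅ := by
          ext ω
          simp only [cyl, Set.mem_inter_iff, Set.mem_ofPred_eq, Set.mem_empty_iff_false, iff_false]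
          rintro ⟨⟨-, ha, -⟩, hb⟩
          rw [hb] at ha
          exact hy ha
        rw [h4, measureReal_empty, pt, if_neg hy]
        ring
    simp_rw [h2] at h1
    rw [← h1.tsum_eq, gl, tsum_mul_left]

theorem IsMarkovChain.p_eq (h : IsMarkovChain μ M p P) (i : ℤ) (x : S) : μ.real {ω | M i ω = x} = p x := by
  have h1 := h.law i 0 (fun _ => x)
  simp only [Finset.range_zero, Finset.prod_empty, mul_one] at h1
  rw [← h1]
  congr 1
  ext ω
  simp only [Set.mem_ofPred_eq]
  constructor
  · intro hx j hj
    have : j = 0 := by omega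
    subst this
    simpa using hx
  · intro hx
    simpa using hx 0 le_rfl

theorem IsMarkovChain.p_nn (h : IsMarkovChain μ M p P) (x : S) : 0 ≤ p x := by
  rw [← h.p_eq 0 x]
  exact measureReal_nonneg

/-- the law of a cylinder -/
theorem IsMarkovChain.cyl_law (h : IsMarkovChain μ M p P) (i : ℤ) (L : List (Set S)) :
    HasSum (fun x => p x * gl P L x) (μ.real (cyl M i L)) := by
  have h1 := h.part (i - 1) (h.meas_cyl L i)
  refine h1.congr_fun fun x => ?_
  have h2 := h.path_cyl L (i - 1) 0 (fun _ => x)
  simp only [Finset.range_zero, Finset.prod_empty, mul_one] at h2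
  rw [← h2]
  congr 1
  ext ω
  simp only [Set.mem_inter_iff, Set.mem_ofPred_eq]
  have e1 : i - 1 + ((0 : ℕ) : ℤ) + 1 = i := by push_cast; ring
  rw [e1]
  constructor
  · rintro ⟨ha, hb⟩
    refine ⟨hb, ?_⟩
    simpa using ha 0 le_rfl
  · rintro ⟨ha, hb⟩
    refine ⟨fun j hj => ?_, ha⟩
    have : j = 0 := by omega
    subst this
    simpa using hb

end Pool.Agent.MP_7d88aa
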