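import Pool.Agent.Lib.MP_7d88aa_pr.Real

/-!
The stationary law integrates the weight.
-/

set_option autoImplicit false
set_option linter.unusedSectionVars false

namespace Pool.Agent.MP_7d88aa

variable {S : Type} {P : S → S → ℝ} {w : S → ℝ}

/-- mass transport -/
theorem Wt.transport (h : Wt P w) {p : S → ℝ} (hp : ∀ x, 0 ≤ p x) (hp1 : Summable p)
    (hst : ∀ y, HasSum (fun x => p x * P x y) (p y)) {v : S → ℝ} (hv : ∀ x, 0 ≤ v x) {n : ℝ}
    (hvn : ∀ x, v x ≤ n) :
    HasSum (fun y => p y * v y) (∑' x, p x * ∑' y, P x y * v y) := by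
  set F : S × S → ℝ := fun t => p t.1 * (P t.1 t.2 * v t.2) with hF
  have hF0 : ∀ t, 0 ≤ F t := fun t => mul_nonneg (hp _) (mul_nonneg (h.nn _ _) (hv _))
  have hPv : ∀ x, Summable fun y => P x y * v y := fun x =>
    Summable.of_nonneg_of_le (fun y => mul_nonneg (h.nn x y) (hv y))
      (fun y => mul_le_mul_of_nonneg_left (hvn y) (h.nn x y)) ((h.one x).summable.mul_right n)
  have hrow : ∀ x, HasSum (fun y => F (x, y)) (p x * ∑' y, P x y * v y) := fun x =>
    (hPv x).hasSum.mul_left (p x)
  have hcol : ∀ y, HasSum (fun x => F (x, y)) (p y * v y) := by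
    intro y
    refine ((hst y).mul_right (v y)).congr_fun fun x => ?_
    simp only [hF]
    ring
  have hle : ∀ x, ∑' y, P x y * v y ≤ n := by
    intro x
    have h1 : ∑' y, P x y * v y ≤ ∑' y, P x y * n :=
      Summable.tsum_le_tsum (fun y => mul_le_mul_of_nonneg_left (hvn y) (h.nn x y)) (hPv x)
        ((h.one x).summable.mul_right n)
    rwa [((h.one x).mul_right n).tsum_eq, one_mul] at h1
  have hs : Summable F := by
    rw [summable_prod_of_nonneg hF0]
    refine ⟨fun x => (hrow x).summable, ?_⟩
    simp_rw [(hrow _).tsum_eq]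
    exact Summable.of_nonneg_of_le
      (fun x => mul_nonneg (hp x) (tsum_nonneg fun y => mul_nonneg (h.nn x y) (hv y)))
      (fun x => mul_le_mul_of_nonneg_left (hle x) (hp x)) (hp1.mul_right n)
  have h1 : HasSum (fun x => p x * ∑' y, P x y * v y) (∑' t, F t) := hs.hasSum.prod_fiberwise hrow
  have h2 : HasSum (fun t : S × S => F (t.2, t.1)) (∑' t, F t) :=
    ((Equiv.prodComm S S).hasSum_iff (f := F)).2 hs.hasSum
  have h3 := h2.prod_fiberwise (f := fun t : S × S => F (t.2, t.1)) hcol
  rw [h1.tsum_eq]
  exact h3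

theorem Wt.moment (h : Wt P w) {p : S → ℝ} (hp : ∀ x, 0 ≤ p x) (hp1 : Summable p)
    (hst : ∀ y, HasSum (fun x => p x * P x y) (p y)) : Summable fun x => p x * w x := by
  classical
  set W : S → ℝ := fun x => ∑' y, P x y * w y with hW
  have hW0 : ∀ x, 0 ≤ W x := fun x => tsum_nonneg fun y => mul_nonneg (h.nn x y) (h.wpos y).le
  have hfin : {x | ¬ (W x / w x < 1 / 2)}.Finite := by
    have := h.sc.tendsto_cofinite_zero.eventually (gt_mem_nhds (show (0 : ℝ) < 1 / 2 by norm_num))
    exact this
  set F : Finset S := hfin.toFinset with hF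
  have hFn : ∀ x, x ∉ F → W x ≤ w x / 2 := by
    intro x hx
    rw [hF, Set.Finite.mem_toFinset] at hx
    have h1 : W x / w x < 1 / 2 := by
      by_contra h2
      exact hx h2
    rw [div_lt_iff₀ (h.wpos x)] at h1
    linarith
  set K : ℝ := ∑ x ∈ F, p x * W x with hK
  -- the bound
  have key : ∀ n : ℝ, 0 ≤ n → ∀ s : Finset S, (∀ x ∈ s, w x ≤ n) → ∑ x ∈ s, p x * w x ≤ 2 * K := by
    intro n hn s hs
    have hv0 : ∀ x, 0 ≤ min (w x) n := fun x => le_min (h.wpos x).le hn
    have h1 := h.transport hp hp1 hst hv0 (fun x => min_le_right (w x) n)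
    set R : S → ℝ := fun x => ∑' y, P x y * min (w y) n with hR
    have hPv : ∀ x, Summable fun y => P x y * min (w y) n := fun x =>
      Summable.of_nonneg_of_le (fun y => mul_nonneg (h.nn x y) (hv0 y))
        (fun y => mul_le_mul_of_nonneg_left (min_le_left _ _) (h.nn x y)) (h.sw x)
    have hRW : ∀ x, R x ≤ W x := fun x =>
      Summable.tsum_le_tsum (fun y => mul_le_mul_of_nonneg_left (min_le_left _ _) (h.nn x y))
        (hPv x) (h.sw x)
    have hRn : ∀ x, R x ≤ n := by
      intro x
      have h2 : R x ≤ ∑' y, P x y * n :=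
        Summable.tsum_le_tsum (fun y => mul_le_mul_of_nonneg_left (min_le_right _ _) (h.nn x y))
          (hPv x) ((h.one x).summable.mul_right n)
      rwa [((h.one x).mul_right n).tsum_eq, one_mul] at h2
    have hR0 : ∀ x, 0 ≤ R x := fun x => tsum_nonneg fun y => mul_nonneg (h.nn x y) (hv0 y)
    have hpR : Summable fun x => p x * R x :=
      Summable.of_nonneg_of_le (fun x => mul_nonneg (hp x) (hR0 x))
        (fun x => mul_le_mul_of_nonneg_left (hRn x) (hp x)) (hp1.mul_right n)
    -- pointwise
    have hpt : ∀ x, p x * R x + (if x ∈ s then p x * w x / 2 else 0) ≤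
        (if x ∈ F then p x * W x else 0) + p x * min (w x) n := by
      intro x
      have hpx := hp x
      have hwx := (h.wpos x).le
      have e1 : R x + (if x ∈ s then w x / 2 else 0) ≤ (if x ∈ F then W x else 0) + min (w x) n := by
        by_cases hxs : x ∈ s
        · rw [if_pos hxs, min_eq_left (hs x hxs)]
          by_cases hxF : x ∈ F
          · rw [if_pos hxF]
            linarith [hRW x]
          · rw [if_neg hxF]
            linarith [hRW x, hFn x hxF]
        · rw [if_neg hxs, add_zero]
          by_cases hxF : x ∈ F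
          · rw [if_pos hxF]
            linarith [hRW x, hv0 x]
          · rw [if_neg hxF, zero_add]
            exact le_min (by linarith [hRW x, hFn x hxF]) (hRn x)
      have e2 := mul_le_mul_of_nonneg_left e1 hpx
      rw [mul_add, mul_add] at e2
      refine le_trans (le_of_eq ?_) (e2.trans (le_of_eq ?_))
      · split_ifs <;> ring
      · split_ifs <;> ring
    have s1 : HasSum (fun x => if x ∈ s then p x * w x / 2 else 0) (∑ x ∈ s, p x * w x / 2) := by
      have h5 : HasSum (fun x => if x ∈ s then p x * w x / 2 else 0)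
          (∑ x ∈ s, if x ∈ s then p x * w x / 2 else 0) :=
        hasSum_sum_of_ne_finset_zero fun x hx => if_neg hx
      rwa [Finset.sum_congr rfl (fun x hx => if_pos hx)] at h5
    have s2 : HasSum (fun x => if x ∈ F then p x * W x else 0) K := by
      have h5 : HasSum (fun x => if x ∈ F then p x * W x else 0)
          (∑ x ∈ F, if x ∈ F then p x * W x else 0) :=
        hasSum_sum_of_ne_finset_zero fun x hx => if_neg hx
      rwa [Finset.sum_congr rfl (fun x hx => if_pos hx)] at h5
    have h3 := hasSum_le hpt (hpR.hasSum.add s1) (s2.add h1)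
    rw [← Finset.sum_div] at h3
    linarith
  refine summable_of_sum_le (c := 2 * K) (fun x => mul_nonneg (hp x) (h.wpos x).le) fun s => ?_
  refine key (∑ x ∈ s, w x) (Finset.sum_nonneg fun x _ => (h.wpos x).le) s fun x hx => ?_
  exact Finset.single_le_sum (f := w) (fun y _ => (h.wpos y).le) hx

end Pool.Agent.MP_7d88aa
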