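import Pool.Agent.Lib.MP_7d88aa_pr.Core

/-!
The realisation of a Markov chain by nuclear operators in a weighted space of square summable functions.
-/

set_option autoImplicit false
set_option linter.unusedSectionVars false

namespace Pool.Agent.MP_7d88aa

open scoped InnerProductSpace

variable {H : Type*} [NormedAddCommGroup H] [InnerProductSpace ℝ H] [CompleteSpace H]

section Vec

variable {S : Type} (e : HilbertBasis S ℝ H)

/-- the vector with the coordinates `c` -/
noncomputable def vec (c : S → ℝ) : H := ∑' y, c y • e y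

theorem vec_hasSum {c : S → ℝ} (hc : Summable fun y => |c y|) : HasSum (fun y => c y • e y) (vec e c) := by
  refine (Summable.of_norm ?_).hasSum
  refine hc.congr fun y => ?_
  rw [norm_smul, e.orthonormal.1 y, mul_one, Real.norm_eq_abs]

theorem vec_norm_le {c : S → ℝ} {C : ℝ} (hc : HasSum (fun y => |c y|) C) : ‖vec e c‖ ≤ C := by
  refine (vec_hasSum e hc.summable).norm_le_of_bounded hc fun y => ?_
  rw [norm_smul, e.orthonormal.1 y, mul_one, Real.norm_eq_abs]

theorem vec_inner {c : S → ℝ} (hc : Summable fun y => |c y|) (h : H) :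
    HasSum (fun y => c y * ⟪e y, h⟫_ℝ) ⟪vec e c, h⟫_ℝ := by
  have h1 := (vec_hasSum e hc).mapL (innerSL ℝ h)
  simp only [innerSL_apply_apply, inner_smul_right] at h1
  rw [real_inner_comm]
  refine h1.congr_fun fun y => ?_
  rw [real_inner_comm]

theorem vec_coord {c : S → ℝ} (hc : Summable fun y => |c y|) (z : S) : ⟪e z, vec e c⟫_ℝ = c z := by
  classical
  have h1 := vec_inner e hc (e z)
  rw [real_inner_comm] at h1
  refine h1.unique ?_
  have h2 : HasSum (fun y => c y * ⟪e y, e z⟫_ℝ) (c z * ⟪e z, e z⟫_ℝ) :=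
    hasSum_single z fun y hy => by rw [e.orthonormal.2 hy, mul_zero]
  rwa [real_inner_self_eq_norm_sq, e.orthonormal.1 z, one_pow, mul_one] at h2

theorem ext_coord {x y : H} (h : ∀ z, ⟪e z, x⟫_ℝ = ⟪e z, y⟫_ℝ) : x = y := by
  have h1 := e.hasSum_repr x
  have h2 := e.hasSum_repr y
  refine h1.unique (h2.congr_fun fun z => ?_)
  rw [e.repr_apply_apply, e.repr_apply_apply, h z]

/-- the operator with the rows `b` -/
noncomputable def opr (b : S → H) : H →L[ℝ] H := ∑' x, (innerSL ℝ (b x)).smulRight (e x)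

theorem opr_rep {b : S → H} (hb : Summable fun x => ‖b x‖) : Rep (fun x => e x) b (opr e b) := by
  have hs : Summable fun x => (innerSL ℝ (b x)).smulRight (e x) := by
    refine Summable.of_norm (hb.congr fun x => ?_)
    rw [ContinuousLinearMap.norm_smulRight_apply, innerSL_apply_norm, e.orthonormal.1 x, mul_one]
  refine ⟨hb.congr fun x => by rw [e.orthonormal.1 x, one_mul], fun x => ?_⟩
  have h1 := hs.hasSum.mapL (ContinuousLinearMap.apply ℝ H x)
  simpa [opr] using h1

theorem opr_coord {b : S → H} (hb : Summable fun x => ‖b x‖) (h : H) (z : S) :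
    ⟪e z, opr e b h⟫_ℝ = ⟪b z, h⟫_ℝ := by
  classical
  have h1 := ((opr_rep e hb).hs h).mapL (innerSL ℝ (e z))
  simp only [innerSL_apply_apply, inner_smul_right] at h1
  refine h1.unique ?_
  have h2 : HasSum (fun y => ⟪b y, h⟫_ℝ * ⟪e z, e y⟫_ℝ) (⟪b z, h⟫_ℝ * ⟪e z, e z⟫_ℝ) :=
    hasSum_single z fun y hy => by rw [e.orthonormal.2 (Ne.symm hy), mul_zero]
  rwa [real_inner_self_eq_norm_sq, e.orthonormal.1 z, one_pow, mul_one] at h2

end Vec

/-- `P` is a stochastic matrix and `w ≥ 1` a weight with `∑ x, (P w)(x) / w(x) < ∞`. -/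
structure Wt {S : Type} (P : S → S → ℝ) (w : S → ℝ) : Prop where
  nn : ∀ x y, 0 ≤ P x y
  one : ∀ x, HasSum (P x) 1
  w1 : ∀ x, 1 ≤ w x
  sw : ∀ x, Summable fun y => P x y * w y
  sc : Summable fun x => (∑' y, P x y * w y) / w x

open Classical in
/-- the transition probabilities to points of `G` -/
noncomputable def pt {S : Type} (P : S → S → ℝ) (G : Set S) (x y : S) : ℝ := if y ∈ G then P x y else 0

/-- the probability to visit the sets of the list one after the other, from `x` -/
noncomputable def gl {S : Type} (P : S → S → ℝ) : List (Set S) → S → ℝ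
  | [], _ => 1
  | G :: L, x => ∑' y, pt P G x y * gl P L y

section Chain

variable {S : Type} {P : S → S → ℝ} {w : S → ℝ}

theorem Wt.pt_nn (h : Wt P w) (G : Set S) (x y : S) : 0 ≤ pt P G x y := by
  rw [pt]
  split_ifs
  · exact h.nn x y
  · exact le_rfl

theorem Wt.pt_le (h : Wt P w) (G : Set S) (x y : S) : pt P G x y ≤ P x y := by
  rw [pt]
  split_ifs
  · exact le_rfl
  · exact h.nn x y

theorem Wt.wpos (h : Wt P w) (x : S) : 0 < w x := lt_of_lt_of_le one_pos (h.w1 x)

theorem Wt.gl_bd (h : Wt P w) (L : List (Set S)) : ∀ x, 0 ≤ gl P L x ∧ gl P L x ≤ 1 := by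
  induction L with
  | nil => intro x; simp [gl]
  | cons G L ih =>
    intro x
    have h1 : ∀ y, 0 ≤ pt P G x y * gl P L y := fun y => mul_nonneg (h.pt_nn G x y) (ih y).1
    have h2 : ∀ y, pt P G x y * gl P L y ≤ P x y := fun y =>
      (mul_le_of_le_one_right (h.pt_nn G x y) (ih y).2).trans (h.pt_le G x y)
    rw [gl]
    refine ⟨tsum_nonneg h1, ?_⟩
    rw [← (h.one x).tsum_eq]
    exact Summable.tsum_le_tsum h2 (Summable.of_nonneg_of_le h1 h2 (h.one x).summable)
      (h.one x).summable

theorem Wt.gl_sm (h : Wt P w) (G : Set S) (L : List (Set S)) (x : S) :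
    Summable fun y => pt P G x y * gl P L y :=
  Summable.of_nonneg_of_le (fun y => mul_nonneg (h.pt_nn G x y) (h.gl_bd L y).1)
    (fun y => (mul_le_of_le_one_right (h.pt_nn G x y) (h.gl_bd L y).2).trans (h.pt_le G x y))
    (h.one x).summable

/-- the weighted row -/
noncomputable def rc (P : S → S → ℝ) (w : S → ℝ) (G : Set S) (x y : S) : ℝ := pt P G x y * w y / w x

theorem Wt.rc_nn (h : Wt P w) (G : Set S) (x y : S) : 0 ≤ rc P w G x y :=
  div_nonneg (mul_nonneg (h.pt_nn G x y) (h.wpos y).le) (h.wpos x).le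

theorem Wt.rc_le (h : Wt P w) (G : Set S) (x y : S) : rc P w G x y ≤ P x y * w y / w x :=
  div_le_div_of_nonneg_right (mul_le_mul_of_nonneg_right (h.pt_le G x y) (h.wpos y).le) (h.wpos x).le

theorem Wt.rc_sm (h : Wt P w) (G : Set S) (x : S) : Summable fun y => |rc P w G x y| := by
  refine Summable.of_nonneg_of_le (fun y => abs_nonneg _) (fun y => ?_) ((h.sw x).div_const (w x))
  rw [abs_of_nonneg (h.rc_nn G x y)]
  exact h.rc_le G x y

theorem Wt.rc_tsum_le (h : Wt P w) (G : Set S) (x : S) :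
    ∑' y, |rc P w G x y| ≤ (∑' y, P x y * w y) / w x := by
  rw [← tsum_div_const]
  refine Summable.tsum_le_tsum (fun y => ?_) (h.rc_sm G x) ((h.sw x).div_const (w x))
  rw [abs_of_nonneg (h.rc_nn G x y)]
  exact h.rc_le G x y

theorem Wt.one_div_le (h : Wt P w) (x : S) : 1 / w x ≤ (∑' y, P x y * w y) / w x := by
  refine div_le_div_of_nonneg_right ?_ (h.wpos x).le
  rw [← (h.one x).tsum_eq]
  exact Summable.tsum_le_tsum (fun y => le_mul_of_one_le_right (h.nn x y) (h.w1 y))
    (h.one x).summable (h.sw x)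

theorem Wt.inv_sm (h : Wt P w) : Summable fun x => |1 / w x| := by
  refine Summable.of_nonneg_of_le (fun y => abs_nonneg _) (fun x => ?_) h.sc
  rw [abs_of_nonneg (div_nonneg one_pos.le (h.wpos x).le)]
  exact h.one_div_le x

variable (e : HilbertBasis S ℝ H)

/-- the rows of the operator of the set `G` -/
noncomputable def brow (P : S → S → ℝ) (w : S → ℝ) (G : Set S) (x : S) : H := vec e (rc P w G x)

/-- the operator of the set `G` -/
noncomputable def AS (P : S → S → ℝ) (w : S → ℝ) (G : Set S) : H →L[ℝ] H := opr e (brow e P w G)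

theorem Wt.brow_sm (h : Wt P w) (G : Set S) : Summable fun x => ‖brow e P w G x‖ := by
  refine Summable.of_nonneg_of_le (fun x => norm_nonneg _) (fun x => ?_) h.sc
  exact (vec_norm_le e (h.rc_sm G x).hasSum).trans (h.rc_tsum_le G x)

theorem Wt.AS_nuc (h : Wt P w) (G : Set S) : Nuc (AS e P w G) :=
  ⟨S, _, _, opr_rep e (h.brow_sm e G)⟩

/-- the vector of the constant function `1` -/
noncomputable def rv (w : S → ℝ) : H := vec e fun x => 1 / w x

theorem Wt.wd_coord (h : Wt P w) (L : List (Set S)) :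
    ∀ x, ⟪e x, wd (AS e P w) L (rv e w)⟫_ℝ = gl P L x / w x := by
  induction L with
  | nil =>
    intro x
    rw [wd, one_apply_eq_self, rv, vec_coord e h.inv_sm, gl]
  | cons G L ih =>
    intro x
    rw [wd, mul_apply_eq_comp, AS, opr_coord e (h.brow_sm e G)]
    have h1 := vec_inner e (h.rc_sm G x) (wd (AS e P w) L (rv e w))
    rw [brow, gl, ← tsum_div_const]
    refine h1.tsum_eq.symm.trans (tsum_congr fun y => ?_)
    rw [ih y, rc]
    have := (h.wpos y).ne'
    have := (h.wpos x).ne'
    field_simp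

theorem Wt.inner_wd (h : Wt P w) (p : S → ℝ) (hp : Summable fun x => |p x * w x|)
    (L : List (Set S)) :
    HasSum (fun x => p x * gl P L x) ⟪vec e (fun x => p x * w x), wd (AS e P w) L (rv e w)⟫_ℝ := by
  refine (vec_inner e hp _).congr_fun fun x => ?_
  rw [h.wd_coord e L x]
  have := (h.wpos x).ne'
  field_simp

theorem Wt.AS_sum (h : Wt P w) {q : Type} [Fintype q] (f : S → q) :
    ∑ a : q, AS e P w (f ⁻¹' {a}) = AS e P w Set.univ := by
  classical
  have h1 : ∀ z, ∑ a : q, brow e P w (f ⁻¹' {a}) z = brow e P w Set.univ z := by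
    intro z
    refine ext_coord e fun y => ?_
    rw [inner_sum]
    simp only [brow]
    rw [vec_coord e (h.rc_sm _ z)]
    simp_rw [vec_coord e (h.rc_sm _ z)]
    simp only [rc, ← Finset.sum_div, ← Finset.sum_mul]
    congr 2
    simp [pt]
  ext x
  refine ext_coord e fun z => ?_
  rw [sum_apply, inner_sum]
  simp only [AS]
  rw [opr_coord e (h.brow_sm e _)]
  simp_rw [opr_coord e (h.brow_sm e _)]
  rw [← h1 z, sum_inner]

end Chain

end Pool.Agent.MP_7d88aa
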