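import Pool.Agent.Lib.MP_7d88aa_pr.Main

/-!
Functions of reversible chains.
-/

set_option autoImplicit false
set_option linter.unusedSectionVars false

namespace Pool.Agent.MP_7d88aa

open MeasureTheory ProbabilityTheory

variable {Ω S : Type} [MeasurableSpace Ω] [Countable S] {μ : Measure Ω} [IsProbabilityMeasure μ]
  {M : ℤ → Ω → S} {p : S → ℝ} {P : S → S → ℝ}

/-- the transition operator -/
noncomputable def tr (P : S → S → ℝ) (h : S → ℝ) (x : S) : ℝ := ∑' y, P x y * h y

/-- bounded functions -/
def Bd (h : S → ℝ) : Prop := ∃ C : ℝ, ∀ x, |h x| ≤ C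

theorem Bd.tr_sm (h : IsMarkovChain μ M p P) {a : S → ℝ} (ha : Bd a) (x : S) :
    Summable fun y => P x y * a y := by
  obtain ⟨C, hC⟩ := ha
  refine Summable.of_norm_bounded ((h.row x).summable.mul_right C) fun y => ?_
  rw [norm_mul, Real.norm_eq_abs, Real.norm_eq_abs, abs_of_nonneg (h.nonneg x y)]
  exact mul_le_mul_of_nonneg_left (hC y) (h.nonneg x y)

theorem Bd.tr (h : IsMarkovChain μ M p P) {a : S → ℝ} (ha : Bd a) : Bd (tr P a) := by
  have hs := ha.tr_sm h
  obtain ⟨C, hC⟩ := ha
  refine ⟨C, fun x => ?_⟩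
  have h1 := (h.row x).mul_right C
  rw [one_mul] at h1
  rw [← Real.norm_eq_abs]
  refine (hs x).hasSum.norm_le_of_bounded h1 fun y => ?_
  rw [norm_mul, Real.norm_eq_abs, Real.norm_eq_abs, abs_of_nonneg (h.nonneg x y)]
  exact mul_le_mul_of_nonneg_left (hC y) (h.nonneg x y)

theorem Bd.iter (h : IsMarkovChain μ M p P) {a : S → ℝ} (ha : Bd a) (n : ℕ) :
    Bd ((MP_7d88aa.tr P)^[n] a) := by
  induction n with
  | zero => exact ha
  | succ n ih => rw [Function.iterate_succ_apply']; exact ih.tr h

theorem Bd.pp_sm (h : IsMarkovChain μ M p P) {a b : S → ℝ} (ha : Bd a) (hb : Bd b) :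
    Summable fun x => p x * a x * b x := by
  obtain ⟨C, hC⟩ := ha
  obtain ⟨D, hD⟩ := hb
  refine Summable.of_norm_bounded ((h.p_sum.summable.mul_right (C * D))) fun x => ?_
  rw [norm_mul, norm_mul, Real.norm_eq_abs, Real.norm_eq_abs, Real.norm_eq_abs,
    abs_of_nonneg (h.p_nn x), mul_assoc]
  refine mul_le_mul_of_nonneg_left ?_ (h.p_nn x)
  exact mul_le_mul (hC x) (hD x) (abs_nonneg _) ((abs_nonneg _).trans (hC x))

theorem Bd.sub_const {a : S → ℝ} (ha : Bd a) (m : ℝ) : Bd fun x => a x - m := by
  obtain ⟨C, hC⟩ := ha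
  exact ⟨C + |m|, fun x => (abs_sub _ _).trans (add_le_add (hC x) le_rfl)⟩

/-- the transition operator of a reversible chain is symmetric -/
theorem tr_symm (h : IsMarkovChain μ M p P) (hrev : ∀ x y, p x * P x y = p y * P y x)
    {a b : S → ℝ} (ha : Bd a) (hb : Bd b) :
    ∑' x, p x * tr P a x * b x = ∑' x, p x * a x * tr P b x := by
  set F : S × S → ℝ := fun t => p t.1 * P t.1 t.2 * a t.2 * b t.1 with hF
  have hrow : ∀ x, HasSum (fun y => F (x, y)) (p x * tr P a x * b x) := by
    intro x
    have h1 := ((ha.tr_sm h x).hasSum.mul_left (p x)).mul_right (b x)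
    refine h1.congr_fun fun y => ?_
    simp only [hF]
    ring
  have hcol : ∀ y, HasSum (fun x => F (x, y)) (p y * a y * tr P b y) := by
    intro y
    have h1 := (hb.tr_sm h y).hasSum.mul_left (p y * a y)
    refine h1.congr_fun fun x => ?_
    simp only [hF]
    rw [hrev x y]
    ring
  obtain ⟨C, hC⟩ := ha
  obtain ⟨D, hD⟩ := hb
  have hG : Summable fun t : S × S => p t.1 * P t.1 t.2 * (C * D) := by
    refine Summable.mul_right _ ?_
    rw [summable_prod_of_nonneg (fun t => mul_nonneg (h.p_nn _) (h.nonneg _ _))]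
    refine ⟨fun x => (h.row x).summable.mul_left (p x), ?_⟩
    have : ∀ x, ∑' y, p x * P x y = p x := fun x => by
      rw [tsum_mul_left, (h.row x).tsum_eq, mul_one]
    simp_rw [this]
    exact h.p_sum.summable
  have hs : Summable F := by
    refine Summable.of_norm_bounded hG fun t => ?_
    have h0 : 0 ≤ p t.1 * P t.1 t.2 := mul_nonneg (h.p_nn _) (h.nonneg _ _)
    rw [hF]
    simp only
    rw [norm_mul, norm_mul, Real.norm_eq_abs, Real.norm_eq_abs, Real.norm_eq_abs, abs_of_nonneg h0,
      mul_assoc]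
    refine mul_le_mul_of_nonneg_left ?_ h0
    exact mul_le_mul (hC _) (hD _) (abs_nonneg _) ((abs_nonneg _).trans (hC t.2))
  have h1 : HasSum (fun x => p x * tr P a x * b x) (∑' t, F t) := hs.hasSum.prod_fiberwise hrow
  have h2 : HasSum (fun t : S × S => F (t.2, t.1)) (∑' t, F t) :=
    ((Equiv.prodComm S S).hasSum_iff (f := F)).2 hs.hasSum
  have h3 := h2.prod_fiberwise (f := fun t : S × S => F (t.2, t.1)) hcol
  rw [h1.tsum_eq, h3.tsum_eq]

theorem iter_symm (h : IsMarkovChain μ M p P) (hrev : ∀ x y, p x * P x y = p y * P y x) (n : ℕ) :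
    ∀ {a b : S → ℝ}, Bd a → Bd b →
    ∑' x, p x * (tr P)^[n] a x * b x = ∑' x, p x * a x * (tr P)^[n] b x := by
  induction n with
  | zero => intro a b _ _; rfl
  | succ n ih =>
    intro a b ha hb
    rw [Function.iterate_succ_apply' (tr P) n a, tr_symm h hrev (ha.iter h n) hb, ih ha (hb.tr h),
      Function.iterate_succ_apply]

/-- a bounded function with `⟨c, P ^ n c⟩ = 0` for all large `n` -/
theorem descent (h : IsMarkovChain μ M p P) (hrev : ∀ x y, p x * P x y = p y * P y x)
    {c : S → ℝ} (hc : Bd c) (N : ℕ) (h0 : ∀ n, N ≤ n → ∑' x, p x * c x * (tr P)^[n] c x = 0) :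
    ∀ x, p x ≠ 0 → tr P c x = 0 := by
  have key : ∀ j : ℕ, ∑' x, p x * c x * (tr P)^[j + j] c x = 0 → ∀ x, p x ≠ 0 → (tr P)^[j] c x = 0 := by
    intro j hj x hx
    rw [Function.iterate_add_apply, ← iter_symm h hrev j hc (hc.iter h j)] at hj
    have h1 := Bd.pp_sm h (hc.iter h j) (hc.iter h j)
    have h2 : ∀ x, 0 ≤ p x * (tr P)^[j] c x * (tr P)^[j] c x := fun x => by
      rw [mul_assoc]
      exact mul_nonneg (h.p_nn x) (mul_self_nonneg _)
    have h3 := (hasSum_zero_iff_of_nonneg h2).1 (hj ▸ h1.hasSum)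
    have h4 := congrFun h3 x
    simp only [Pi.zero_apply, mul_assoc] at h4
    rcases mul_eq_zero.1 h4 with h5 | h5
    · exact absurd h5 hx
    · exact mul_self_eq_zero.1 h5
  have step : ∀ j i : ℕ, j ≤ i + i → (∀ x, p x ≠ 0 → (tr P)^[j] c x = 0) →
      ∀ x, p x ≠ 0 → (tr P)^[i] c x = 0 := by
    intro j i hji hj
    refine key i ?_
    obtain ⟨d, hd⟩ := Nat.exists_eq_add_of_le hji
    rw [hd, add_comm j d, Function.iterate_add_apply, ← iter_symm h hrev d hc (hc.iter h j)]
    have : ∀ x, p x * (tr P)^[d] c x * (tr P)^[j] c x = 0 := by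
      intro x
      by_cases hx : p x = 0
      · rw [hx, zero_mul, zero_mul]
      · rw [hj x hx, mul_zero]
    simp_rw [this]
    exact tsum_zero
  have all : ∀ j : ℕ, (∀ x, p x ≠ 0 → (tr P)^[j + 1] c x = 0) → ∀ x, p x ≠ 0 → (tr P)^[1] c x = 0 := by
    intro j
    induction j using Nat.strong_induction_on with
    | _ j ih =>
      intro hj
      rcases Nat.eq_zero_or_pos j with h1 | h1
      · subst h1
        exact hj
      · rcases Nat.lt_or_ge j 2 with h2 | h2
        · have : j = 1 := by omega
          subst this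
          exact step 2 1 (by norm_num) hj
        · exact ih (j / 2) (by omega) (step (j + 1) (j / 2 + 1) (by omega) hj)
  have := all N (key (N + 1) (h0 _ (by omega)))
  simpa using this

open Classical in
/-- `gl` cut to a set -/
noncomputable def bl (P : S → S → ℝ) (G : Set S) (L : List (Set S)) (x : S) : ℝ :=
  if x ∈ G then gl P L x else 0

theorem gl_cons (G : Set S) (L : List (Set S)) (x : S) : gl P (G :: L) x = tr P (bl P G L) x := by
  rw [gl, tr]
  refine tsum_congr fun y => ?_
  rw [pt, bl]
  split_ifs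
  · rfl
  · ring

theorem IsMarkovChain.gl_bd (h : IsMarkovChain μ M p P) (L : List (Set S)) :
    Bd (gl P L) ∧ ∀ G, Bd (bl P G L) := by
  have h1 : Bd (gl P L) := by
    induction L with
    | nil => exact ⟨1, fun x => by simp [gl]⟩
    | cons G L ih =>
      obtain ⟨C, hC⟩ := ih
      have : Bd (bl P G L) := ⟨C, fun x => by
        rw [bl]
        split_ifs
        · exact hC x
        · rw [abs_zero]
          exact (abs_nonneg _).trans (hC x)⟩
      obtain ⟨D, hD⟩ := this.tr h
      exact ⟨D, fun x => by rw [gl_cons]; exact hD x⟩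
  refine ⟨h1, fun G => ?_⟩
  obtain ⟨C, hC⟩ := h1
  exact ⟨C, fun x => by
    rw [bl]
    split_ifs
    · exact hC x
    · rw [abs_zero]
      exact (abs_nonneg _).trans (hC x)⟩

theorem tr_one (h : IsMarkovChain μ M p P) (x : S) : tr P (fun _ => 1) x = 1 := by
  rw [tr]
  simp only [mul_one]
  exact (h.row x).tsum_eq

/-- past and future of a reversible chain -/
theorem past_future (h : IsMarkovChain μ M p P) (hrev : ∀ x y, p x * P x y = p y * P y x)
    (L1 : List (Set S)) : ∀ (G : Set S) (L2 : List (Set S)),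
    ∑' x, p x * gl P L1 x * bl P G L2 x = μ.real (cyl M 0 (L1.reverse ++ G :: L2)) := by
  induction L1 with
  | nil =>
    intro G L2
    have h1 := (h.cyl_law 0 (G :: L2)).tsum_eq
    have h2 := tr_symm h hrev ((h.gl_bd L2).2 G) (b := fun _ => 1) ⟨1, fun x => by simp⟩
    simp_rw [tr_one h, mul_one, ← gl_cons] at h2
    rw [List.reverse_nil, List.nil_append, ← h1, h2]
    refine tsum_congr fun x => ?_
    rw [gl, mul_one]
  | cons G1 L1 ih =>
    intro G L2
    have h2 := tr_symm h hrev ((h.gl_bd L1).2 G1) ((h.gl_bd L2).2 G)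
    simp_rw [← gl_cons] at h2
    rw [h2, List.reverse_cons, List.append_assoc, List.singleton_append, ← ih G1 (G :: L2)]
    refine tsum_congr fun x => ?_
    rw [bl, bl]
    split_ifs
    · rfl
    · ring

theorem gl_replicate (n : ℕ) (L : List (Set S)) : gl P (List.replicate n Set.univ ++ L) = (tr P)^[n] (gl P L) := by
  induction n with
  | zero => rfl
  | succ n ih =>
    rw [List.replicate_succ, List.cons_append, Function.iterate_succ_apply', ← ih]
    funext x
    rw [gl_cons]
    congr 1
    funext y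
    simp [bl]

/-- the future does not depend on the present state -/
theorem rev_const (h : IsMarkovChain μ M p P) (hrev : ∀ x y, p x * P x y = p y * P y x) {q : ℕ}
    (f : S → Fin q) (k : ℕ) (hk : IsDependent μ (fun i ω => f (M i ω)) k) (u : Fin q) (L : List (Fin q))
    (x : S) (hx : p x ≠ 0) :
    gl P ((u :: L).map fun a => f ⁻¹' {a}) x = μ.real (cyl M 0 ((u :: L).map fun a => f ⁻¹' {a})) := by
  set G : Set S := f ⁻¹' {u} with hG
  set L' : List (Set S) := L.map fun a => f ⁻¹' {a} with hL'
  have hmap : (u :: L).map (fun a => f ⁻¹' {a}) = G :: L' := rfl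
  rw [hmap]
  set m : ℝ := μ.real (cyl M 0 (G :: L')) with hm
  set b : S → ℝ := bl P G L' with hb
  have hbB : Bd b := (h.gl_bd L').2 G
  have h1B : Bd (fun _ : S => (1 : ℝ)) := ⟨1, fun x => by simp⟩
  have hbm : ∑' x, p x * b x = m := by
    have := past_future h hrev [] G L'
    simp only [gl, mul_one, List.reverse_nil, List.nil_append] at this
    exact this
  have hit1 : ∀ n : ℕ, (tr P)^[n] (fun _ : S => (1 : ℝ)) = fun _ => 1 := by
    intro n
    induction n with
    | zero => rfl
    | succ n ih =>
      rw [Function.iterate_succ_apply', ih]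
      funext x
      exact tr_one h x
  have htrsub : ∀ {a : S → ℝ} (_ : Bd a) (m : ℝ), tr P (fun x => a x - m) = fun x => tr P a x - m := by
    intro a ha m
    funext x
    rw [tr, tr]
    have e1 := (ha.tr_sm h x).hasSum.sub ((h.row x).mul_right m)
    rw [one_mul] at e1
    rw [← e1.tsum_eq]
    refine tsum_congr fun y => ?_
    ring
  have hitsub : ∀ n : ℕ, (tr P)^[n] (fun x => b x - m) = fun x => (tr P)^[n] b x - m := by
    intro n
    induction n with
    | zero => rfl
    | succ n ih =>
      rw [Function.iterate_succ_apply', ih, htrsub (hbB.iter h n), Function.iterate_succ_apply']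
  have hzero : ∀ n, k + 1 ≤ n → ∑' x, p x * (b x - m) * (tr P)^[n] (fun x => b x - m) x = 0 := by
    intro n hn
    rw [hitsub n]
    have s1 := (Bd.pp_sm h hbB (hbB.iter h n)).hasSum
    have s2 : HasSum (fun x => p x * b x) m := by
      rw [← hbm]
      have := Bd.pp_sm h hbB h1B
      simp only [mul_one] at this
      exact this.hasSum
    have s3 : HasSum (fun x => p x * (tr P)^[n] b x) m := by
      have e1 := iter_symm h hrev n hbB h1B
      rw [hit1 n] at e1
      simp only [mul_one] at e1
      rw [← hbm, ← e1]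
      have := Bd.pp_sm h (hbB.iter h n) h1B
      simp only [mul_one] at this
      exact this.hasSum
    have s4 := h.p_sum
    -- the correlation
    obtain ⟨t, rfl⟩ := Nat.exists_eq_add_of_le' (show 1 ≤ n by omega)
    have e1 : (tr P)^[t + 1] b = gl P (List.replicate t Set.univ ++ G :: L') := by
      rw [gl_replicate, Function.iterate_succ_apply]
      congr 1
      funext x
      rw [gl_cons]
    have e2 := past_future h hrev (List.replicate t Set.univ ++ G :: L') G L'
    rw [List.reverse_append, List.reverse_replicate] at e2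
    have e3 : (G :: L').reverse = ((u :: L).reverse).map fun a => f ⁻¹' {a} := by
      rw [List.map_reverse, hmap]
    have e4 : μ.real (cyl M 0 (G :: L').reverse) = m := by
      have e5 := past_future h hrev L' G []
      rw [← List.reverse_cons] at e5
      rw [← e5, ← hbm]
      refine tsum_congr fun x => ?_
      rw [hb, bl, bl]
      split_ifs
      · rw [gl, mul_one]
      · ring
    have e6 : μ.real (cyl M 0 ((G :: L').reverse ++ List.replicate t Set.univ ++ G :: L')) = m * m := by
      rw [List.append_assoc, cyl_append, cyl_append, cyl_univ, Set.univ_inter, List.length_replicate]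
      have e7 := cyl_indep (M := M) f hk (u :: L).reverse (u :: L) 0 t (by omega)
      rw [← e3, hmap, e4] at e7
      have e8 : (G :: L').reverse.length = (u :: L).reverse.length := by rw [e3, List.length_map]
      rw [e8, e7]
      congr 1
      exact (h.cyl_law _ _).unique (h.cyl_law 0 _)
    rw [e6] at e2
    have s5 : HasSum (fun x => p x * b x * (tr P)^[t + 1] b x) (m * m) := by
      have : ∑' x, p x * b x * (tr P)^[t + 1] b x = m * m := by
        rw [← e2, e1]
        refine tsum_congr fun x => ?_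
        ring
      rw [← this]
      exact s1
    have s6 := ((s5.sub (s2.mul_left m)).sub (s3.mul_left m)).add (s4.mul_left (m * m))
    have s7 : m * m - m * m - m * m + m * m * 1 = 0 := by ring
    rw [s7] at s6
    refine s6.tsum_eq.symm ▸ (tsum_congr fun x => ?_)
    ring
  have h2 := descent h hrev (hbB.sub_const m) (k + 1) hzero x hx
  rw [htrsub hbB m] at h2
  rw [gl_cons]
  linarith

/-- the process is independent -/
theorem rev_prod (h : IsMarkovChain μ M p P) (hrev : ∀ x y, p x * P x y = p y * P y x) {q : ℕ}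
    (f : S → Fin q) (k : ℕ) (hk : IsDependent μ (fun i ω => f (M i ω)) k) (L : List (Fin q)) : ∀ i : ℤ,
    μ.real (cyl M i (L.map fun a => f ⁻¹' {a})) = (L.map fun a => μ.real {ω | f (M 0 ω) = a}).prod := by
  induction L with
  | nil => intro i; simp [cyl]
  | cons u L ih =>
    intro i
    rw [(h.cyl_law i _).unique (h.cyl_law 0 _), List.map_cons, List.map_cons, List.prod_cons, ← ih 0]
    have h0 := past_future h hrev [] (f ⁻¹' {u}) (L.map fun a => f ⁻¹' {a})
    have h1 := past_future h hrev [] (f ⁻¹' {u}) []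
    rw [List.reverse_nil, List.nil_append] at h0 h1
    rw [← h0]
    have h2 : μ.real {ω | f (M 0 ω) = u} = μ.real (cyl M 0 [f ⁻¹' {u}]) := by
      congr 1
      ext ω
      simp [cyl]
    rw [h2, ← h1, ← tsum_mul_right]
    refine tsum_congr fun x => ?_
    by_cases hx : p x = 0
    · rw [hx]
      ring
    · rw [bl, bl]
      split_ifs
      · rcases L with _ | ⟨v, L⟩
        · simp [gl, cyl]
        · rw [rev_const h hrev f k hk v L x hx]
          simp [gl]
      · ring

/-- the process is independent; words as functions -/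
theorem rev_thm (h : IsMarkovChain μ M p P) (hrev : ∀ x y, p x * P x y = p y * P y x) {q : ℕ}
    (f : S → Fin q) (k : ℕ) (hk : IsDependent μ (fun i ω => f (M i ω)) k) (i : ℤ) (n : ℕ)
    (u : Fin n → Fin q) :
    μ.real {ω | ∀ j : Fin n, f (M (i + (j : ℕ)) ω) = u j} =
      ∏ j : Fin n, μ.real {ω | f (M 0 ω) = u j} := by
  have h1 := rev_prod h hrev f k hk (List.ofFn u) i
  rw [List.map_ofFn, List.map_ofFn, List.prod_ofFn] at h1
  have h2 : cyl M i (List.ofFn ((fun a => f ⁻¹' {a}) ∘ u)) =
      {ω | ∀ j : Fin n, f (M (i + (j : ℕ)) ω) = u j} := by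
    ext ω
    rw [mem_cyl_ofFn]
    exact Iff.rfl
  rw [← h2, h1]
  rfl

end Pool.Agent.MP_7d88aa
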