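import Mathlib

/-!
Traces of nuclear operators of a real Hilbert space; nilpotent nuclear operators have trace zero.
-/

set_option autoImplicit false
set_option linter.unusedSectionVars false

namespace Pool.Agent.MP_7d88aa

open scoped InnerProductSpace

variable {H : Type*} [NormedAddCommGroup H] [InnerProductSpace ℝ H] [CompleteSpace H]

/-- `T x = ∑ n, ⟪b n, x⟫ a n` with `∑ n, ‖a n‖ ‖b n‖ < ∞`. -/
structure Rep {J : Type} (a b : J → H) (T : H →L[ℝ] H) : Prop where
  sm : Summable fun n => ‖a n‖ * ‖b n‖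
  hs : ∀ x, HasSum (fun n => ⟪b n, x⟫_ℝ • a n) (T x)

theorem abs_sum_le {ι : Type*} (e : HilbertBasis ι ℝ H) (a b : H) (s : Finset ι) :
    ∑ j ∈ s, |⟪b, e j⟫_ℝ * ⟪e j, a⟫_ℝ| ≤ ‖a‖ * ‖b‖ := by
  have h1 : ∀ x : H, ∑ j ∈ s, ⟪e j, x⟫_ℝ ^ 2 ≤ ‖x‖ ^ 2 := by
    intro x
    have h := e.orthonormal.sum_inner_products_le (x := x) (s := s)
    refine le_trans (le_of_eq ?_) h
    refine Finset.sum_congr rfl fun j _ => ?_
    rw [Real.norm_eq_abs, sq_abs]
  have h2 : ∑ j ∈ s, |⟪b, e j⟫_ℝ * ⟪e j, a⟫_ℝ| = ∑ j ∈ s, |⟪e j, a⟫_ℝ| * |⟪e j, b⟫_ℝ| := by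
    refine Finset.sum_congr rfl fun j _ => ?_
    rw [abs_mul, real_inner_comm, mul_comm]
  rw [h2]
  have h3 := Finset.sum_mul_sq_le_sq_mul_sq s (fun j => |⟪e j, a⟫_ℝ|) (fun j => |⟪e j, b⟫_ℝ|)
  simp only [sq_abs] at h3
  have h4 : (∑ j ∈ s, |⟪e j, a⟫_ℝ| * |⟪e j, b⟫_ℝ|) ^ 2 ≤ (‖a‖ * ‖b‖) ^ 2 := by
    refine h3.trans ?_
    rw [mul_pow]
    exact mul_le_mul (h1 a) (h1 b) (Finset.sum_nonneg fun j _ => sq_nonneg _) (sq_nonneg _)
  exact abs_le_of_sq_le_sq' h4 (by positivity) |>.2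

theorem Rep.summable_inner {J : Type} {a b : J → H} {T : H →L[ℝ] H} (h : Rep a b T) :
    Summable fun n => ⟪b n, a n⟫_ℝ := by
  refine Summable.of_norm_bounded h.sm fun n => ?_
  rw [mul_comm]
  exact norm_inner_le_norm _ _

/-- the trace in an orthonormal basis -/
theorem Rep.trace {J : Type} {a b : J → H} {T : H →L[ℝ] H} (h : Rep a b T) {ι : Type*}
    (e : HilbertBasis ι ℝ H) :
    HasSum (fun j => ⟪e j, T (e j)⟫_ℝ) (∑' n, ⟪b n, a n⟫_ℝ) := by
  set F : J × ι → ℝ := fun p => ⟪b p.1, e p.2⟫_ℝ * ⟪e p.2, a p.1⟫_ℝ with hF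
  have hrow : ∀ n, HasSum (fun j => F (n, j)) ⟪b n, a n⟫_ℝ := fun n =>
    e.hasSum_inner_mul_inner (b n) (a n)
  have hcol : ∀ j, HasSum (fun n => F (n, j)) ⟪e j, T (e j)⟫_ℝ := by
    intro j
    have h1 := (h.hs (e j)).mapL (innerSL ℝ (e j))
    simpa [hF, inner_smul_right] using h1
  have habs : Summable fun p : J × ι => ‖F p‖ := by
    rw [summable_prod_of_nonneg (fun p => norm_nonneg _)]
    have hb : ∀ n, ∀ s : Finset ι, ∑ j ∈ s, ‖F (n, j)‖ ≤ ‖a n‖ * ‖b n‖ := fun n s => by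
      simpa [hF] using abs_sum_le e (a n) (b n) s
    have hs : ∀ n, Summable fun j => ‖F (n, j)‖ := fun n =>
      summable_of_sum_le (fun j => norm_nonneg _) (hb n)
    refine ⟨hs, ?_⟩
    refine Summable.of_nonneg_of_le (fun n => tsum_nonneg fun j => norm_nonneg _) (fun n => ?_) h.sm
    exact Real.tsum_le_of_sum_le (fun j => norm_nonneg _) (hb n)
  have hsum := habs.of_norm.hasSum
  have h1 : HasSum (fun n => ⟪b n, a n⟫_ℝ) (∑' p, F p) := hsum.prod_fiberwise hrow
  have h2 : HasSum (fun p : ι × J => F (p.2, p.1)) (∑' p, F p) :=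
    ((Equiv.prodComm ι J).hasSum_iff (f := F)).2 hsum
  have h3 := h2.prod_fiberwise (f := fun p : ι × J => F (p.2, p.1)) hcol
  rw [h1.tsum_eq]
  exact h3

theorem Rep.tsum_eq {J J' : Type} {a b : J → H} {a' b' : J' → H} {T : H →L[ℝ] H} (h : Rep a b T)
    (h' : Rep a' b' T) : ∑' n, ⟪b n, a n⟫_ℝ = ∑' n, ⟪b' n, a' n⟫_ℝ := by
  obtain ⟨w, e, -⟩ := exists_hilbertBasis ℝ H
  exact (h.trace e).unique (h'.trace e)

theorem norm_star_le (K : Submodule ℝ H) [K.HasOrthogonalProjection] (x : H) :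
    ‖K.starProjection x‖ ≤ ‖x‖ := K.norm_starProjection_apply_le x

/-- composition with a projection on the left -/
theorem Rep.comp_left {J : Type} {a b : J → H} {T : H →L[ℝ] H} (h : Rep a b T) (S : H →L[ℝ] H) :
    Rep (fun n => S (a n)) b (S ∘L T) := by
  refine ⟨?_, fun x => ?_⟩
  · refine Summable.of_nonneg_of_le (fun n => by positivity) (fun n => ?_) (h.sm.mul_left ‖S‖)
    rw [← mul_assoc]
    exact mul_le_mul_of_nonneg_right (S.le_opNorm _) (norm_nonneg _)
  · have h1 := (h.hs x).mapL S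
    simpa using h1

/-- composition with a symmetric operator on the right -/
theorem Rep.comp_right {J : Type} {a b : J → H} {T : H →L[ℝ] H} (h : Rep a b T) (S : H →L[ℝ] H)
    (hS : ∀ x y, ⟪S x, y⟫_ℝ = ⟪x, S y⟫_ℝ) :
    Rep a (fun n => S (b n)) (T ∘L S) := by
  refine ⟨?_, fun x => ?_⟩
  · refine Summable.of_nonneg_of_le (fun n => by positivity) (fun n => ?_) (h.sm.mul_left ‖S‖)
    calc ‖a n‖ * ‖S (b n)‖ ≤ ‖a n‖ * (‖S‖ * ‖b n‖) :=
          mul_le_mul_of_nonneg_left (S.le_opNorm _) (norm_nonneg _)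
      _ = ‖S‖ * (‖a n‖ * ‖b n‖) := by ring
  · have h1 := h.hs (S x)
    simpa [hS] using h1

theorem star_symm (K : Submodule ℝ H) [K.HasOrthogonalProjection] (x y : H) :
    ⟪K.starProjection x, y⟫_ℝ = ⟪x, K.starProjection y⟫_ℝ :=
  K.inner_starProjection_left_eq_right x y

/-- a nilpotent operator with a nuclear representation has trace zero -/
theorem Rep.nilpotent (m : ℕ) : ∀ {J : Type} {a b : J → H} {T : H →L[ℝ] H}, Rep a b T →
    T ^ m = 0 → ∑' n, ⟪b n, a n⟫_ℝ = 0 := by
  induction m with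
  | zero =>
    intro J a b T h hT
    have h1 : ∀ x : H, x = 0 := fun x => by
      have := DFunLike.congr_fun hT x
      simpa using this
    have : ∀ n, ⟪b n, a n⟫_ℝ = 0 := fun n => by rw [h1 (b n), inner_zero_left]
    simp [this]
  | succ m ih =>
    intro J a b T h hT
    have hTT : ∀ x, T ((T ^ m) x) = 0 := fun x => by
      have := DFunLike.congr_fun hT x
      rwa [pow_succ'] at this
    set K : Submodule ℝ H := LinearMap.ker (T : H →ₗ[ℝ] H) with hK
    have : CompleteSpace K := by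
      have : IsClosed (K : Set H) := T.isClosed_ker
      exact this.completeSpace_coe
    set E := Kᗮ.starProjection with hE
    have hTE : T ∘L E = T := by
      ext x
      have h1 : E x = x - K.starProjection x := Submodule.starProjection_orthogonal_val x
      have h2 : T (K.starProjection x) = 0 :=
        LinearMap.mem_ker.1 (Submodule.starProjection_apply_mem K x)
      rw [ContinuousLinearMap.comp_apply, h1, map_sub, h2, sub_zero]
    have hEsymm := star_symm Kᗮ
    -- two representations of `T`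
    have h1 : Rep a (fun n => E (b n)) T := by
      have := h.comp_right E hEsymm
      rwa [hTE] at this
    have h2 := h.tsum_eq h1
    -- the compressed operator
    have h3 : Rep (fun n => E (a n)) b (E ∘L T) := h.comp_left E
    have h4 : ∀ j, (E ∘L T) ^ (j + 1) = E ∘L (T ^ (j + 1)) := by
      intro j
      induction j with
      | zero => simp
      | succ j hj =>
        rw [pow_succ, hj, pow_succ T (j + 1)]
        ext x
        simp only [mul_apply_eq_comp, ContinuousLinearMap.comp_apply]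
        have h5 : (T ^ (j + 1)) (E (T x)) = (T ^ (j + 1)) (T x) := by
          rw [pow_succ]
          simp only [mul_apply_eq_comp]
          have := DFunLike.congr_fun hTE (T x)
          rw [ContinuousLinearMap.comp_apply] at this
          rw [this]
        rw [h5]
    rcases m with _ | m
    · have hT0 : T = 0 := by simpa using hT
      have h6 : ∑' n, ⟪b n, a n⟫_ℝ = ∑' n : Empty, ⟪(fun _ => (0:H)) n, (fun _ => (0:H)) n⟫_ℝ := by
        refine h.tsum_eq (J' := Empty) (a' := fun _ => 0) (b' := fun _ => 0) ⟨summable_empty, fun x => ?_⟩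
        rw [hT0]
        simp
      rw [h6]
      simp
    · have h5 : (E ∘L T) ^ (m + 1) = 0 := by
        rw [h4]
        ext x
        rw [ContinuousLinearMap.comp_apply, zero_apply]
        have h6 : (T ^ (m + 1)) x ∈ K := LinearMap.mem_ker.2 (hTT x)
        exact Submodule.starProjection_orthogonal_apply_eq_zero h6
      have h6 := ih h3 h5
      rw [h2]
      have h7 : ∀ n, ⟪E (b n), a n⟫_ℝ = ⟪b n, E (a n)⟫_ℝ := fun n => hEsymm _ _
      simp_rw [h7]
      exact h6

end Pool.Agent.MP_7d88aa
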